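import Pool.Agent.TH629.ExpAlg
import Pool.Agent.TH456.TM.Inst

/-!
Measures of linear independence of numbers `β θ ^ w`, `β` algebraic, `θ` with a transcendence measure.
-/

set_option autoImplicit false

namespace Pool.Agent.X121.TV

open Finset Polynomial Module Filter Pool.Agent.W472.AC Pool.Agent.TH629.ExpAlg

/-- a transcendence measure of polynomial type in every degree -/
def MT (θ : ℝ) : Prop :=
  ∀ D : ℕ, ∃ κ c : ℝ, 0 ≤ κ ∧ 0 < c ∧ ∀ N : Fin (D + 1) → ℤ, N ≠ 0 → ∀ H : ℝ, 1 ≤ H →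
    (∀ k, |(N k : ℝ)| ≤ H) → c ≤ H ^ κ * |∑ k, (N k : ℝ) * θ ^ (k : ℕ)|

theorem MT_exp : MT (Real.exp 1) := by
  intro D
  obtain ⟨c, hc, h⟩ := e_meas D (fun i => ((i : ℕ) : ℤ)) (fun i j hij => by
    apply Fin.ext
    simpa using hij) (by simp) (fun i => by positivity) 1 one_pos
  refine ⟨(D : ℝ) + 1, c, by positivity, hc, fun N hN H hH hNH => ?_⟩
  have h1 := h N hN H hH hNH
  have h2 : ∑ k : Fin (D + 1), (N k : ℝ) * (Real.exp 1) ^ (k : ℕ) =
      ∑ i : Fin (D + 1), (N i : ℝ) * Real.exp (((i : ℕ) : ℤ) : ℝ) := by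
    refine Finset.sum_congr rfl fun i _ => ?_
    rw [← Real.exp_nat_mul]
    simp
  rw [h2]
  exact h1

theorem MT_of {θ : ℝ} (hθ : Pool.Agent.TH456.TM.MeasT (θ : ℂ)) : MT θ := by
  intro D
  obtain ⟨κ, c, hκ, hc, h⟩ := hθ D
  refine ⟨κ, c, hκ, hc, fun N hN H hH hNH => ?_⟩
  obtain ⟨P, hP⟩ : ∃ P : ℤ[X], P = ∑ k : Fin (D + 1), C (N k) * X ^ (k : ℕ) := ⟨_, rfl⟩
  have hcoef : ∀ k, P.coeff k = if h : k < D + 1 then N ⟨k, h⟩ else 0 := by
    intro k
    rw [hP]
    simp only [Polynomial.finsetSum_coeff, Polynomial.coeff_C_mul, Polynomial.coeff_X_pow]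
    by_cases h : k < D + 1
    · rw [dif_pos h, sum_eq_single ⟨k, h⟩]
      · simp
      · intro b _ hb
        rw [if_neg (fun h2 => hb (Fin.ext h2.symm)), mul_zero]
      · intro h2
        exact absurd (mem_univ _) h2
    · rw [dif_neg h]
      refine Finset.sum_eq_zero fun i _ => ?_
      rw [if_neg (by have := i.2; omega), mul_zero]
  have hP0 : P ≠ 0 := by
    intro h0
    apply hN
    ext k
    have := hcoef k
    rw [h0, coeff_zero, dif_pos k.2] at this
    exact this.symm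
  have hdeg : P.natDegree ≤ D := by
    rw [natDegree_le_iff_coeff_eq_zero]
    intro k hk
    rw [hcoef, dif_neg (by omega)]
  have h1 := h P hP0 hdeg H hH (fun k => by
    rw [hcoef]
    split_ifs with h2
    · exact hNH _
    · simp; linarith)
  have h2 : aeval (θ : ℂ) P = ((∑ k : Fin (D + 1), (N k : ℝ) * θ ^ (k : ℕ) : ℝ) : ℂ) := by
    rw [hP, map_sum]
    push_cast
    refine Finset.sum_congr rfl fun k _ => ?_
    rw [map_mul, map_pow, aeval_X, aeval_C]
    simp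
  rw [h2, Complex.norm_real, Real.norm_eq_abs] at h1
  exact h1

theorem MT_pi : MT Real.pi := MT_of Pool.Agent.TH456.TM.measT_pi

theorem MT_log (q : ℚ) (hq : 0 < q) (hq1 : q ≠ 1) : MT (Real.log q) :=
  MT_of (Pool.Agent.TH456.TM.measT_real_log q hq hq1)

theorem meas_field {θ : ℝ} (hθ : MT θ) (K : IntermediateField ℚ ℝ) [FiniteDimensional ℚ K] {m : ℕ}
    (β : Fin (m + 1) → K) (w : Fin (m + 1) → ℕ)
    (hli : LinearIndependent ℚ fun j => (β j : ℝ) * θ ^ (w j)) :
    ∃ κ c : ℝ, 0 ≤ κ ∧ 0 < c ∧ Meas (fun j => (β j : ℝ) * θ ^ (w j)) κ c := by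
  classical
  obtain ⟨R, hR⟩ : ∃ R : ℕ, ∀ j, w j ≤ R :=
    ⟨Finset.univ.sup w, fun j => Finset.le_sup (Finset.mem_univ j)⟩
  obtain ⟨d, hd⟩ : ∃ d, d = finrank ℚ K := ⟨_, rfl⟩
  have hdpos : 0 < d := by rw [hd]; exact finrank_pos
  have hdR : (1 : ℝ) ≤ d := by exact_mod_cast hdpos
  obtain ⟨b⟩ : Nonempty (Basis (Fin d) ℚ K) := ⟨Module.finBasisOfFinrankEq ℚ K hd.symm⟩
  obtain ⟨D, hD, z, hz⟩ := common_den
    (fun p : Fin (m + 1) × Fin d × Fin d => Algebra.leftMulMatrix b (β p.1) p.2.1 p.2.2)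
  obtain ⟨A, hAz⟩ : ∃ A : Fin (m + 1) → Matrix (Fin d) (Fin d) ℤ,
    A = fun j => Matrix.of fun r c => z (j, r, c) := ⟨_, rfl⟩
  have hA : ∀ j r c, ((A j r c : ℤ) : ℚ) = D * Algebra.leftMulMatrix b (β j) r c := by
    intro j r c
    rw [hAz]
    exact hz (j, r, c)
  obtain ⟨v, hv⟩ : ∃ v : Fin d → ℝ, v = fun i => ((b i : K) : ℝ) := ⟨_, rfl⟩
  have hv0 : ∀ i, v i ≠ 0 := by
    intro i h
    rw [hv] at h
    have h2 : ((b i : K) : ℝ) = 0 := h
    have h1 : b i = 0 := by exact_mod_cast h2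
    exact b.ne_zero i h1
  have heig : ∀ j l, ∑ i, v i * (A j i l : ℝ) = D * (β j : ℝ) * v l := by
    intro j l
    have h1 : β j * b l = ∑ i, Algebra.leftMulMatrix b (β j) i l • b i := by
      rw [← b.sum_repr (β j * b l)]
      refine Finset.sum_congr rfl fun i _ => ?_
      rw [Algebra.leftMulMatrix_eq_repr_mul]
    have h2 : ((β j : K) : ℝ) * ((b l : K) : ℝ) =
        ∑ i, ((Algebra.leftMulMatrix b (β j) i l : ℚ) : ℝ) * ((b i : K) : ℝ) := by
      have h3 : ((β j * b l : K) : ℝ) =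
          ((∑ i, Algebra.leftMulMatrix b (β j) i l • b i : K) : ℝ) := by rw [h1]
      push_cast at h3
      rw [h3]
      refine Finset.sum_congr rfl fun i _ => ?_
      simp [Rat.smul_def]
    have h4 : ∀ i, (A j i l : ℝ) = D * ((Algebra.leftMulMatrix b (β j) i l : ℚ) : ℝ) := by
      intro i
      have := congrArg (fun q : ℚ => (q : ℝ)) (hA j i l)
      simpa using this
    rw [hv]
    simp only []
    rw [mul_assoc, h2, Finset.mul_sum]
    refine Finset.sum_congr rfl fun i _ => ?_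
    rw [h4]
    ring
  obtain ⟨S, hS1, hdet⟩ := det_poly w R hR A
  obtain ⟨S', hS'⟩ : ∃ S' : ℝ, S' = 1 + ∑ j, ∑ r, ∑ c, |θ| ^ (w j) * |(A j r c : ℝ)| :=
    ⟨_, rfl⟩
  have hS'1 : 1 ≤ S' := by
    rw [hS']
    have : 0 ≤ ∑ j, ∑ r, ∑ c, |θ| ^ (w j) * |(A j r c : ℝ)| :=
      Finset.sum_nonneg fun _ _ => Finset.sum_nonneg fun _ _ => Finset.sum_nonneg fun _ _ => by
        positivity
    linarith
  obtain ⟨V, hV⟩ : ∃ V : ℝ, V = 1 + ∑ i, |v i| := ⟨_, rfl⟩
  have hV1 : 1 ≤ V := by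
    have : 0 ≤ ∑ i, |v i| := Finset.sum_nonneg fun _ _ => abs_nonneg _
    linarith
  obtain ⟨w', c, hw0, hc, hmeas⟩ := hθ (d * R)
  obtain ⟨l⟩ : Nonempty (Fin d) := ⟨⟨0, hdpos⟩⟩
  obtain ⟨Cc, hC⟩ : ∃ Cc : ℝ, Cc = S ^ w' * (D * ((d.factorial : ℝ) * (V * S' ^ (d - 1)))) := ⟨_, rfl⟩
  have hCpos : 0 < Cc := by
    rw [hC]
    have : (0 : ℝ) < D := by exact_mod_cast hD
    have h2 : 0 < S := by linarith
    have h3 : 0 < S' := by linarith
    have h4 : 0 < V := by linarith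
    positivity
  have hvl : 0 < |v l| := abs_pos.2 (hv0 l)
  refine ⟨(d : ℝ) * w' + ((d - 1 : ℕ) : ℝ), c * |v l| / Cc, by positivity, by positivity,
    fun a ha H hH haH => ?_⟩
  obtain ⟨N, hN1, hN2⟩ := hdet a
  obtain ⟨Λ, hΛ⟩ : ∃ Λ : ℝ, Λ = ∑ j, (a j : ℝ) * ((β j : ℝ) * θ ^ (w j)) := ⟨_, rfl⟩
  have hΛ0 : Λ ≠ 0 := by
    intro h0
    apply ha
    have h1 := Fintype.linearIndependent_iff.1 hli (fun j => (a j : ℚ)) (by
      rw [← h0, hΛ]
      refine Finset.sum_congr rfl fun j _ => ?_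
      rw [Rat.smul_def]
      simp)
    ext j
    have := h1 j
    exact_mod_cast this
  -- the matrix at `e`
  obtain ⟨M, hM⟩ : ∃ M : Matrix (Fin d) (Fin d) ℝ, M = Matrix.of fun r c =>
    ∑ j, ((a j : ℝ) * θ ^ w j) * ((A j r c : ℤ) : ℝ) := ⟨_, rfl⟩
  have hMdet : M.det = ∑ k : Fin (d * R + 1), (N k : ℝ) * θ ^ (k : ℕ) := by
    rw [hM, hN2 ℝ θ]
  have hrow : ∀ t, ∑ i, v i * M i t = D * Λ * v t := by
    intro t
    rw [hM, hΛ]
    simp only [Matrix.of_apply]
    calc ∑ i, v i * ∑ j, ((a j : ℝ) * θ ^ w j) * ((A j i t : ℤ) : ℝ)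
        = ∑ j, ((a j : ℝ) * θ ^ w j) * ∑ i, v i * (A j i t : ℝ) := by
          simp_rw [Finset.mul_sum]
          rw [Finset.sum_comm]
          refine Finset.sum_congr rfl fun j _ => Finset.sum_congr rfl fun i _ => ?_
          ring
      _ = ∑ j, ((a j : ℝ) * θ ^ w j) * (D * (β j : ℝ) * v t) := by
          refine Finset.sum_congr rfl fun j _ => ?_
          rw [heig]
      _ = _ := by
          rw [Finset.mul_sum, Finset.sum_mul]
          refine Finset.sum_congr rfl fun j _ => ?_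
          ring
  have hkey : v l * M.det = D * Λ * (M.updateRow l v).det := by
    have h1 := Matrix.det_updateRow_sum M l v
    have h2 : (∑ k, v k • M k) = (D * Λ) • v := by
      ext t
      simp only [Finset.sum_apply, Pi.smul_apply, smul_eq_mul]
      exact hrow t
    rw [h2, Matrix.det_updateRow_smul] at h1
    rw [smul_eq_mul] at h1
    exact h1.symm
  have hMb : ∀ r c, |M r c| ≤ H * S' := by
    intro r c
    rw [hM]
    simp only [Matrix.of_apply]
    refine (Finset.abs_sum_le_sum_abs _ _).trans ?_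
    have h1 : ∀ j, |((a j : ℝ) * θ ^ w j) * ((A j r c : ℤ) : ℝ)| ≤
        H * (|θ| ^ (w j) * |(A j r c : ℝ)|) := by
      intro j
      rw [abs_mul, abs_mul, abs_pow, mul_assoc]
      exact mul_le_mul_of_nonneg_right (haH j) (by positivity)
    refine (Finset.sum_le_sum fun j _ => h1 j).trans ?_
    rw [← Finset.mul_sum]
    refine mul_le_mul_of_nonneg_left ?_ (by linarith)
    rw [hS']
    have h2 : ∑ j, |θ| ^ (w j) * |(A j r c : ℝ)| ≤
        ∑ j, ∑ r, ∑ c, |θ| ^ (w j) * |(A j r c : ℝ)| := by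
      refine Finset.sum_le_sum fun j _ => ?_
      have h3 : |θ| ^ (w j) * |(A j r c : ℝ)| ≤ ∑ c, |θ| ^ (w j) * |(A j r c : ℝ)| :=
        Finset.single_le_sum (f := fun c => |θ| ^ (w j) * |(A j r c : ℝ)|)
          (fun _ _ => by positivity) (mem_univ c)
      have h4 : ∑ c, |θ| ^ (w j) * |(A j r c : ℝ)| ≤
          ∑ r, ∑ c, |θ| ^ (w j) * |(A j r c : ℝ)| :=
        Finset.single_le_sum (f := fun r => ∑ c, |θ| ^ (w j) * |(A j r c : ℝ)|)
          (fun _ _ => Finset.sum_nonneg fun _ _ => by positivity) (mem_univ r)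
      exact h3.trans h4
    linarith
  have hbd : |(M.updateRow l v).det| ≤ (d.factorial : ℝ) * (V * (H * S') ^ (d - 1)) := by
    refine det_bound _ l V (H * S') (fun c => ?_) (fun r c hr => ?_)
    · rw [Matrix.updateRow_self, hV]
      have := Finset.single_le_sum (f := fun i => |v i|) (fun _ _ => abs_nonneg _) (mem_univ c)
      linarith
    · rw [Matrix.updateRow_ne hr]
      exact hMb r c
  -- the polynomial is not zero
  have hN0 : N ≠ 0 := by
    intro h0
    have hroot : ∀ x : ℕ, ∑ j, ((a j : K) * β j) * (x : K) ^ w j = 0 := by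
      intro x
      have h1 := hN2 ℚ (x : ℚ)
      rw [h0] at h1
      simp only [Pi.zero_apply, Int.cast_zero, zero_mul, Finset.sum_const_zero] at h1
      have h2 : (Matrix.of fun r c => ∑ j, ((a j : ℚ) * (x : ℚ) ^ w j) * ((A j r c : ℤ) : ℚ)) =
          (D : ℚ) • Algebra.leftMulMatrix b (∑ j, ((a j : K) * β j) * (x : K) ^ w j) := by
        have h3 : (∑ j, ((a j : K) * β j) * (x : K) ^ w j) =
            ∑ j, ((a j : ℚ) * (x : ℚ) ^ w j) • β j := by
          refine Finset.sum_congr rfl fun j _ => ?_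
          rw [Algebra.smul_def]
          push_cast
          simp
          ring
        rw [h3, map_sum]
        ext r c
        simp only [map_smul, Matrix.of_apply, Matrix.smul_apply, Matrix.sum_apply, smul_eq_mul]
        rw [Finset.mul_sum]
        refine Finset.sum_congr rfl fun j _ => ?_
        rw [hA]
        ring
      rw [h2, Matrix.det_smul, ← Algebra.norm_eq_matrix_det] at h1
      have h4 : ((D : ℚ)) ^ Fintype.card (Fin d) ≠ 0 := by
        have : (D : ℚ) ≠ 0 := by exact_mod_cast hD.ne'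
        positivity
      have h5 := (mul_eq_zero.1 h1).resolve_left h4
      by_contra hne
      exact (Algebra.norm_ne_zero_iff.2 hne) h5
    obtain ⟨p, hp⟩ : ∃ p : K[X], p = ∑ j, C ((a j : K) * β j) * X ^ w j := ⟨_, rfl⟩
    have hp0 : p = 0 := by
      refine Polynomial.eq_zero_of_infinite_isRoot p ?_
      refine Set.infinite_of_injective_forall_mem (f := fun x : ℕ => (x : K)) Nat.cast_injective
        fun x => ?_
      show p.IsRoot (x : K)
      rw [IsRoot.def, hp, eval_finsetSum]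
      simp only [eval_mul, eval_C, eval_pow, eval_X]
      exact hroot x
    apply hΛ0
    have h6 : p.eval₂ (algebraMap K ℝ) θ = Λ := by
      rw [hp, eval₂_finsetSum, hΛ]
      refine Finset.sum_congr rfl fun j _ => ?_
      rw [eval₂_mul, eval₂_C, eval₂_pow, eval₂_X, map_mul]
      simp
      ring
    rw [← h6, hp0, eval₂_zero]
  -- conclusion
  have hH0 : 0 < H := by linarith
  have hHS : 1 ≤ H ^ d * S := by
    have : 1 ≤ H ^ d := one_le_pow₀ hH
    nlinarith
  have h1 := hmeas N hN0 (H ^ d * S) hHS (hN1 H hH haH)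
  rw [← hMdet] at h1
  have h2 : |v l| * |M.det| ≤ D * |Λ| * ((d.factorial : ℝ) * (V * (H * S') ^ (d - 1))) := by
    rw [← abs_mul, hkey, abs_mul, abs_mul]
    have : |(D : ℝ)| = D := abs_of_nonneg (Nat.cast_nonneg D)
    rw [this]
    exact mul_le_mul_of_nonneg_left hbd (by positivity)
  have hexpo : (H ^ d) ^ w' * H ^ (d - 1) = H ^ ((d : ℝ) * w' + ((d - 1 : ℕ) : ℝ)) := by
    rw [← Real.rpow_natCast H d, ← Real.rpow_mul hH0.le, ← Real.rpow_natCast H (d - 1),
      ← Real.rpow_add hH0]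
  rw [div_le_iff₀ hCpos]
  have hSpos : 0 < S := by linarith
  have hHd : (0 : ℝ) ≤ H ^ d := by positivity
  calc c * |v l| ≤ ((H ^ d * S) ^ w' * |M.det|) * |v l| :=
        mul_le_mul_of_nonneg_right h1 hvl.le
    _ = (H ^ d * S) ^ w' * (|v l| * |M.det|) := by ring
    _ ≤ (H ^ d * S) ^ w' * (D * |Λ| * ((d.factorial : ℝ) * (V * (H * S') ^ (d - 1)))) := by
        refine mul_le_mul_of_nonneg_left h2 ?_
        positivity
    _ = ((H ^ d) ^ w' * H ^ (d - 1)) * |Λ| *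
          (S ^ w' * (D * ((d.factorial : ℝ) * (V * S' ^ (d - 1))))) := by
        rw [Real.mul_rpow hHd hSpos.le, mul_pow]
        ring
    _ = H ^ ((d : ℝ) * w' + ((d - 1 : ℕ) : ℝ)) * |Λ| * Cc := by rw [hexpo, hC]
    _ = H ^ ((d : ℝ) * w' + ((d - 1 : ℕ) : ℝ)) * |∑ j, (a j : ℝ) * ((β j : ℝ) * θ ^ (w j))| * Cc := by
        rw [hΛ]



end Pool.Agent.X121.TV
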