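import Pool.Agent.X121.TV.Maj

set_option autoImplicit false

namespace Pool.Agent.X121.TV

open Finset Filter Pool.Agent.X121.AB
open Pool.Agent.Y93.VK (ee ee_add norm_ee ee_zero ee_neg ee_eq)

theorem ee_sum {ι : Type*} (s : Finset ι) (f : ι → ℝ) : ee (∑ i ∈ s, f i) = ∏ i ∈ s, ee (f i) := by
  classical
  induction s using Finset.induction_on with
  | empty => simp [ee_zero]
  | insert a s ha ih => rw [Finset.sum_insert ha, Finset.prod_insert ha, ee_add, ih]

/-- the number of the points in a box of the grid -/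
theorem cell_le {ι : Type} [Fintype ι] [DecidableEq ι] (S : Finset ℕ) (Y : ℕ → ι → ℝ) (T : ℕ)
    (hT : 1 ≤ T) {δ ε : ℝ} (hδ : 0 < δ) (hδ1 : δ ≤ 1) (hε : 0 ≤ ε)
    (hY : ∀ h : ι → ℤ, h ≠ 0 → (∀ i, |h i| ≤ T) → ‖∑ b ∈ S, ee (∑ i, h i * Y b i)‖ ≤ ε * S.card)
    (m : ℕ) (hm : 1 ≤ m) (A : ι → Fin m) :
    ((S.filter fun b => ∀ i, ((A i : ℕ) : ℝ) ≤ m * Int.fract (Y b i) ∧
      m * Int.fract (Y b i) < (A i : ℕ) + 1).card : ℝ) ≤
      S.card * ((1 / m + δ + 1 / (δ * T)) ^ (Fintype.card ι) +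
        ((2 * T + 1) * (4 / δ)) ^ (Fintype.card ι) * ε) := by
  classical
  have hm0 : (0 : ℝ) < m := by exact_mod_cast hm
  have hex : ∀ i, ∃ (g : ℝ → ℝ) (w : ℤ → ℂ), (∀ t : ℝ, ((g t : ℝ) : ℂ) =
      ∑ h ∈ Finset.Icc (-(T : ℤ)) T, w h * ee (h * t)) ∧
      (∀ t, 0 ≤ g t) ∧ (∀ t, ((A i : ℕ) : ℝ) / m ≤ Int.fract t → Int.fract t < (((A i : ℕ) : ℝ) + 1) / m →
        1 ≤ g t) ∧
      w 0 = (((((A i : ℕ) : ℝ) + 1) / m - ((A i : ℕ) : ℝ) / m + δ + 1 / (δ * T) : ℝ) : ℂ) ∧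
      ∀ h, ‖w h‖ ≤ 4 / δ := by
    intro i
    have hA : (((A i : ℕ) : ℝ) + 1) ≤ m := by
      have := (A i).2
      exact_mod_cast this
    refine exists_maj T hT hδ hδ1 (by positivity) ?_ ?_
    · gcongr; linarith
    · rw [div_le_one hm0]; exact hA
  choose g w hg hg0 hg1 hw0 hw using hex
  have hc : ∀ i, w i 0 = (((1 / m + δ + 1 / (δ * T) : ℝ)) : ℂ) := by
    intro i
    rw [hw0 i]
    congr 2
    field_simp
    ring
  obtain ⟨c, hcd⟩ : ∃ c : ℝ, c = 1 / m + δ + 1 / (δ * T) := ⟨_, rfl⟩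
  have hc0 : 0 ≤ c := by rw [hcd]; positivity
  -- the count is bounded by the sum of the products
  have h1 : ((S.filter fun b => ∀ i, ((A i : ℕ) : ℝ) ≤ m * Int.fract (Y b i) ∧
      m * Int.fract (Y b i) < (A i : ℕ) + 1).card : ℝ) ≤ ∑ b ∈ S, ∏ i, g i (Y b i) := by
    rw [Finset.card_filter]
    push_cast
    refine Finset.sum_le_sum fun b _ => ?_
    split_ifs with h
    · calc (1 : ℝ) = ∏ i : ι, (1 : ℝ) := by simp
        _ ≤ ∏ i, g i (Y b i) := by
            refine Finset.prod_le_prod (fun _ _ => by norm_num) fun i _ => ?_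
            refine hg1 i _ ?_ ?_
            · rw [div_le_iff₀ hm0, mul_comm]; exact (h i).1
            · rw [lt_div_iff₀ hm0, mul_comm]; exact (h i).2
    · exact Finset.prod_nonneg fun i _ => hg0 i _
  refine h1.trans ?_
  -- expansion
  have h2 : ((∑ b ∈ S, ∏ i, g i (Y b i) : ℝ) : ℂ) =
      ∑ p ∈ Fintype.piFinset (fun _ : ι => Finset.Icc (-(T : ℤ)) T),
        (∏ i, w i (p i)) * ∑ b ∈ S, ee (∑ i, p i * Y b i) := by
    rw [Complex.ofReal_sum]
    simp only [Complex.ofReal_prod, hg, Finset.prod_univ_sum]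
    rw [Finset.sum_comm]
    refine Finset.sum_congr rfl fun p _ => ?_
    rw [Finset.mul_sum]
    refine Finset.sum_congr rfl fun b _ => ?_
    rw [Finset.prod_mul_distrib, ee_sum]
  have h3 : ∑ b ∈ S, ∏ i, g i (Y b i) ≤ ‖((∑ b ∈ S, ∏ i, g i (Y b i) : ℝ) : ℂ)‖ := by
    rw [Complex.norm_real]
    exact Real.le_norm_self _
  refine h3.trans ?_
  rw [h2]
  have hmem : (0 : ι → ℤ) ∈ Fintype.piFinset (fun _ : ι => Finset.Icc (-(T : ℤ)) T) := by
    rw [Fintype.mem_piFinset]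
    intro i
    rw [Finset.mem_Icc]
    simp
  rw [← Finset.add_sum_erase _ _ hmem]
  have h4 : ‖(∏ i, w i ((0 : ι → ℤ) i)) * ∑ b ∈ S, ee (∑ i, ((0 : ι → ℤ) i) * Y b i)‖ =
      S.card * c ^ (Fintype.card ι) := by
    have e1 : ∏ i, w i ((0 : ι → ℤ) i) = ((c ^ (Fintype.card ι) : ℝ) : ℂ) := by
      simp only [Pi.zero_apply, hc, ← hcd]
      rw [Finset.prod_const, Finset.card_univ]
      push_cast
      rfl
    have e2 : ∑ b ∈ S, ee (∑ i, (((0 : ι → ℤ) i : ℤ) : ℝ) * Y b i) = S.card := by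
      simp [ee_zero]
    rw [e1, e2, norm_mul, Complex.norm_real, Complex.norm_natCast, Real.norm_eq_abs,
      abs_of_nonneg (by positivity), mul_comm]
  have hcard : ((Fintype.piFinset (fun _ : ι => Finset.Icc (-(T : ℤ)) T)).card : ℝ) =
      (2 * T + 1) ^ (Fintype.card ι) := by
    rw [Fintype.card_piFinset, Finset.prod_const, Finset.card_univ, Int.card_Icc]
    have : ((T : ℤ) + 1 - -(T : ℤ)).toNat = 2 * T + 1 := by omega
    rw [this]
    push_cast
    rfl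
  have h5 : ‖∑ p ∈ (Fintype.piFinset (fun _ : ι => Finset.Icc (-(T : ℤ)) T)).erase 0,
      (∏ i, w i (p i)) * ∑ b ∈ S, ee (∑ i, p i * Y b i)‖ ≤
      (2 * T + 1) ^ (Fintype.card ι) * ((4 / δ) ^ (Fintype.card ι) * (ε * S.card)) := by
    refine (norm_sum_le _ _).trans ?_
    calc _ ≤ ∑ p ∈ (Fintype.piFinset (fun _ : ι => Finset.Icc (-(T : ℤ)) T)).erase 0,
          ((4 / δ) ^ (Fintype.card ι) * (ε * S.card)) := by
          refine Finset.sum_le_sum fun p hp => ?_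
          rw [Finset.mem_erase, Fintype.mem_piFinset] at hp
          rw [norm_mul, norm_prod]
          apply mul_le_mul _ _ (norm_nonneg _) (by positivity)
          · calc ∏ i, ‖w i (p i)‖ ≤ ∏ i : ι, (4 / δ) :=
                Finset.prod_le_prod (fun _ _ => norm_nonneg _) fun i _ => hw i _
              _ = _ := by rw [Finset.prod_const, Finset.card_univ]
          · refine hY p hp.1 fun i => ?_
            have := Finset.mem_Icc.1 (hp.2 i)
            rw [abs_le]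
            exact this
      _ = (((Fintype.piFinset (fun _ : ι => Finset.Icc (-(T : ℤ)) T)).erase 0).card : ℝ) *
          ((4 / δ) ^ (Fintype.card ι) * (ε * S.card)) := by
          rw [Finset.sum_const, nsmul_eq_mul]
      _ ≤ _ := by
          apply mul_le_mul_of_nonneg_right _ (by positivity)
          rw [← hcard]
          exact_mod_cast Finset.card_le_card (Finset.erase_subset _ _)
  calc _ ≤ ‖(∏ i, w i ((0 : ι → ℤ) i)) * ∑ b ∈ S, ee (∑ i, ((0 : ι → ℤ) i) * Y b i)‖ +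
        ‖∑ p ∈ (Fintype.piFinset (fun _ : ι => Finset.Icc (-(T : ℤ)) T)).erase 0,
          (∏ i, w i (p i)) * ∑ b ∈ S, ee (∑ i, p i * Y b i)‖ := norm_add_le _ _
    _ ≤ S.card * c ^ (Fintype.card ι) +
        (2 * T + 1) ^ (Fintype.card ι) * ((4 / δ) ^ (Fintype.card ι) * (ε * S.card)) := by
        rw [h4]; gcongr
    _ = _ := by rw [← hcd, mul_pow]; ring

/-- the box of the grid which contains the point -/
noncomputable def cell {ι : Type} (m : ℕ) (hm : 1 ≤ m) (y : ι → ℝ) : ι → Fin m := fun i =>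
  ⟨⌊m * Int.fract (y i)⌋₊, by
    have hm0 : (0 : ℝ) < m := by exact_mod_cast hm
    rw [Nat.floor_lt (by have := Int.fract_nonneg (y i); positivity)]
    have := Int.fract_lt_one (y i)
    nlinarith⟩

theorem cell_eq_iff {ι : Type} (m : ℕ) (hm : 1 ≤ m) (y : ι → ℝ) (A : ι → Fin m) :
    cell m hm y = A ↔ ∀ i, ((A i : ℕ) : ℝ) ≤ m * Int.fract (y i) ∧
      m * Int.fract (y i) < (A i : ℕ) + 1 := by
  rw [funext_iff]
  refine forall_congr' fun i => ?_
  have h0 : 0 ≤ (m : ℝ) * Int.fract (y i) := by have := Int.fract_nonneg (y i); positivity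
  rw [Fin.ext_iff, ← Nat.floor_eq_iff h0]
  rfl

/-- **total variation** -/
theorem tv_le {ι : Type} [Fintype ι] [DecidableEq ι] (S : Finset ℕ) (hS : S.Nonempty) (Y : ℕ → ι → ℝ)
    (T : ℕ) (hT : 1 ≤ T) {δ ε : ℝ} (hδ : 0 < δ) (hδ1 : δ ≤ 1) (hε : 0 ≤ ε)
    (hY : ∀ h : ι → ℤ, h ≠ 0 → (∀ i, |h i| ≤ T) → ‖∑ b ∈ S, ee (∑ i, h i * Y b i)‖ ≤ ε * S.card)
    (m : ℕ) (hm : 1 ≤ m) (E : Finset (ι → Fin m)) :
    |((S.filter fun b => cell m hm (Y b) ∈ E).card : ℝ) / S.card - E.card / (m : ℝ) ^ (Fintype.card ι)| ≤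
      (1 + m * (δ + 1 / (δ * T))) ^ (Fintype.card ι) - 1 +
        (m * ((2 * T + 1) * (4 / δ))) ^ (Fintype.card ι) * ε := by
  classical
  have hm0 : (0 : ℝ) < m := by exact_mod_cast hm
  have hS0 : (0 : ℝ) < S.card := by exact_mod_cast hS.card_pos
  obtain ⟨D, hD⟩ : ∃ D : ℕ, D = Fintype.card ι := ⟨_, rfl⟩
  obtain ⟨R, hR⟩ : ∃ R : ℝ, R = (1 + m * (δ + 1 / (δ * T))) ^ D - 1 +
        (m * ((2 * T + 1) * (4 / δ))) ^ D * ε := ⟨_, rfl⟩
  rw [← hD, ← hR]
  -- the mass of a cell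
  have hcell : ∀ A : ι → Fin m, ((S.filter fun b => cell m hm (Y b) = A).card : ℝ) / S.card ≤
      1 / (m : ℝ) ^ D + R / (m : ℝ) ^ D := by
    intro A
    have h1 := cell_le S Y T hT hδ hδ1 hε hY m hm A
    simp only [← cell_eq_iff m hm] at h1
    rw [← hD] at h1
    rw [div_le_iff₀ hS0]
    refine h1.trans (le_of_eq ?_)
    rw [hR]
    have e1 : (1 / m + δ + 1 / (δ * T) : ℝ) ^ D = (1 + m * (δ + 1 / (δ * T))) ^ D / (m : ℝ) ^ D := by
      rw [← div_pow]
      congr 1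
      field_simp
      ring
    have e2 : ((2 * T + 1) * (4 / δ) : ℝ) ^ D = (m * ((2 * T + 1) * (4 / δ))) ^ D / (m : ℝ) ^ D := by
      rw [← div_pow]
      congr 1
      field_simp
    rw [e1, e2]
    ring
  have hup : ∀ E : Finset (ι → Fin m), ((S.filter fun b => cell m hm (Y b) ∈ E).card : ℝ) / S.card ≤
      E.card / (m : ℝ) ^ D + E.card * (R / (m : ℝ) ^ D) := by
    intro E
    have e : (S.filter fun b => cell m hm (Y b) ∈ E) =
        E.biUnion fun A => S.filter fun b => cell m hm (Y b) = A := by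
      ext b
      simp only [Finset.mem_filter, Finset.mem_biUnion]
      constructor
      · rintro ⟨h1, h2⟩
        exact ⟨_, h2, h1, rfl⟩
      · rintro ⟨A, h1, h2, h3⟩
        exact ⟨h2, h3 ▸ h1⟩
    have h1 : ((S.filter fun b => cell m hm (Y b) ∈ E).card : ℝ) ≤
        ∑ A ∈ E, ((S.filter fun b => cell m hm (Y b) = A).card : ℝ) := by
      rw [e]
      exact_mod_cast Finset.card_biUnion_le
    calc _ ≤ (∑ A ∈ E, ((S.filter fun b => cell m hm (Y b) = A).card : ℝ)) / S.card := by gcongr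
      _ = ∑ A ∈ E, ((S.filter fun b => cell m hm (Y b) = A).card : ℝ) / S.card := Finset.sum_div _ _ _
      _ ≤ ∑ A ∈ E, (1 / (m : ℝ) ^ D + R / (m : ℝ) ^ D) := Finset.sum_le_sum fun A _ => hcell A
      _ = _ := by rw [Finset.sum_const, nsmul_eq_mul]; ring
  have hR0 : 0 ≤ R := by
    rw [hR]
    have h1 : (1 : ℝ) ≤ (1 + m * (δ + 1 / (δ * T))) ^ D := one_le_pow₀ (by
      have : 0 ≤ (m : ℝ) * (δ + 1 / (δ * T)) := by positivity
      linarith)
    have h2 : 0 ≤ (m * ((2 * T + 1) * (4 / δ)) : ℝ) ^ D * ε := by positivity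
    linarith
  have hcardle : ∀ E : Finset (ι → Fin m), (E.card : ℝ) ≤ (m : ℝ) ^ D := by
    intro E
    have h1 : E.card ≤ Fintype.card (ι → Fin m) := Finset.card_le_univ E
    rw [Fintype.card_fun, Fintype.card_fin, ← hD] at h1
    exact_mod_cast h1
  have hbd : ∀ E : Finset (ι → Fin m), (E.card : ℝ) * (R / (m : ℝ) ^ D) ≤ R := by
    intro E
    calc _ ≤ (m : ℝ) ^ D * (R / (m : ℝ) ^ D) := by gcongr; exact hcardle E
      _ = R := by field_simp
  have hcompl : ((S.filter fun b => cell m hm (Y b) ∈ E).card : ℝ) / S.card +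
      ((S.filter fun b => cell m hm (Y b) ∈ Eᶜ).card : ℝ) / S.card = 1 := by
    rw [← add_div, div_eq_one_iff_eq hS0.ne']
    have : S.filter (fun b => cell m hm (Y b) ∈ Eᶜ) = S.filter (fun b => ¬ cell m hm (Y b) ∈ E) := by
      ext b; simp
    rw [this]
    exact_mod_cast Finset.card_filter_add_card_filter_not _
  have hEc : (Eᶜ.card : ℝ) = (m : ℝ) ^ D - E.card := by
    rw [Finset.card_compl, Fintype.card_fun, Fintype.card_fin, ← hD, Nat.cast_sub]
    · push_cast; rfl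
    · have := Finset.card_le_univ E
      rw [Fintype.card_fun, Fintype.card_fin, ← hD] at this
      exact this
  have h1 := hup E
  have h2 := hup Eᶜ
  have h3 := hbd E
  have h4 := hbd Eᶜ
  have h5 : (Eᶜ.card : ℝ) / (m : ℝ) ^ D = 1 - E.card / (m : ℝ) ^ D := by
    rw [hEc, sub_div, div_self (by positivity)]
  rw [h5] at h2
  rw [abs_le]
  constructor <;> linarith

end Pool.Agent.X121.TV
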