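import Pool.Agent.X121.TV.Small
import Pool.Agent.X121.TV.Disc

set_option autoImplicit false

namespace Pool.Agent.X121.TV

open Finset Filter Pool.Agent.X121.AB
open Pool.Agent.Y93.VK (ee ee_add norm_ee ee_zero ee_neg ee_eq)

/-- the phases are locally polynomials with a coefficient of finite type -/
def LocPol (f : ℕ → ℝ) (τ : ℕ) (y : ℝ) : Prop :=
  ∃ r d : ℕ, 2 ≤ r ∧ (r : ℝ) ≤ y ^ 10 ∧ d ∈ Finset.Icc 1 r ∧
    ∀ b : ℕ, ∃ (u : ℂ) (α : ℕ → ℝ), ‖u‖ = 1 ∧ FT (α d) (Real.exp (-(y ^ 60))) τ ∧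
      ∀ n : ℕ, ee (f (b + n)) = u * ee (∑ j ∈ Finset.Icc 1 r, α j * (n : ℝ) ^ j)

theorem tv_final (k τ : ℕ) :
    ∀ᶠ y : ℝ in atTop, ∀ B : ℕ, (B : ℝ) = Real.exp (y ^ 70) →
      ∀ (ι : Type) [Fintype ι] [DecidableEq ι] (Y : ℕ → ι → ℝ), (Fintype.card ι : ℝ) ≤ k * y ^ 10 →
      (∀ h : ι → ℤ, h ≠ 0 → (∀ i, |(h i : ℝ)| ≤ Real.exp (y ^ 8)) →
        LocPol (fun b => ∑ i, h i * Y b i) τ y) →
      ∀ (m : ℕ) (hm : 1 ≤ m), (m : ℝ) ≤ Real.exp (y ^ 7) → ∀ E : Finset (ι → Fin m),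
        |(((Finset.Icc 1 B).filter fun b => cell m hm (Y b) ∈ E).card : ℝ) / B -
          E.card / (m : ℝ) ^ (Fintype.card ι)| ≤ Real.exp (-(y ^ 7)) := by
  filter_upwards [weylG τ, eventually_ge_atTop (8 : ℝ), eventually_ge_atTop (4 * k : ℝ),
    ev_pow_exp (3 * k) 10 (ε := 1) (by norm_num)] with y hW hy8 hyk hye
  intro B hB ι _ _ Y hcard hloc m hm hmy E
  have hy0 : (0 : ℝ) < y := by linarith
  have hy1 : (1 : ℝ) ≤ y := by linarith
  have yp : ∀ a b : ℕ, a ≤ b → y ^ a ≤ y ^ b := fun a b hab => pow_le_pow_right₀ hy1 hab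
  have hB0 : (0 : ℝ) < B := by rw [hB]; exact Real.exp_pos _
  have hB1 : 1 ≤ B := by
    have : 0 < B := by exact_mod_cast hB0
    omega
  obtain ⟨T, hT⟩ : ∃ T : ℕ, T = ⌊Real.exp (y ^ 8)⌋₊ := ⟨_, rfl⟩
  have hexp8 : 2 ≤ Real.exp (y ^ 8) := by
    have h1 := Real.add_one_le_exp (y ^ 8)
    have h2 : (1 : ℝ) ≤ y ^ 8 := one_le_pow₀ hy1
    linarith
  have hT1 : 1 ≤ T := by
    rw [hT, Nat.one_le_floor_iff]
    linarith
  have hTle : (T : ℝ) ≤ Real.exp (y ^ 8) := by rw [hT]; exact Nat.floor_le (Real.exp_nonneg _)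
  have hTge : Real.exp (y ^ 8) / 2 ≤ T := by
    have h1 : Real.exp (y ^ 8) < T + 1 := by rw [hT]; exact Nat.lt_floor_add_one _
    have h2 : (1 : ℝ) ≤ T := by exact_mod_cast hT1
    linarith
  have hT0 : (0 : ℝ) < T := by exact_mod_cast hT1
  obtain ⟨δ, hδ⟩ : ∃ δ : ℝ, δ = Real.exp (-(y ^ 8 / 2)) := ⟨_, rfl⟩
  have hδ0 : 0 < δ := by rw [hδ]; exact Real.exp_pos _
  have hδ1 : δ ≤ 1 := by
    rw [hδ, Real.exp_le_one_iff]
    have : 0 ≤ y ^ 8 := by positivity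
    linarith
  have hbig : ∀ h : ι → ℤ, h ≠ 0 → (∀ i, |h i| ≤ T) →
      ‖∑ b ∈ Finset.Icc 1 B, ee (∑ i, h i * Y b i)‖ ≤ Real.exp (-(y ^ 20)) * (Finset.Icc 1 B).card := by
    intro h h0 hb
    obtain ⟨r, d, hr2, hry, hd, hL⟩ := hloc h h0 (by
      intro i
      have h1 := hb i
      have h2 : |(h i : ℝ)| ≤ T := by exact_mod_cast h1
      exact h2.trans hTle)
    have := hW B hB (fun b => ee (∑ i, h i * Y b i)) r d hr2 hry hd hL
    rw [Nat.card_Icc, Nat.add_sub_cancel, mul_comm]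
    exact this
  have hmain := tv_le (Finset.Icc 1 B) ⟨1, by rw [Finset.mem_Icc]; exact ⟨le_refl _, hB1⟩⟩ Y T hT1 hδ0 hδ1
    (Real.exp_nonneg _) hbig m hm E
  rw [Nat.card_Icc, Nat.add_sub_cancel] at hmain
  refine hmain.trans ?_
  obtain ⟨D, hD⟩ : ∃ D : ℕ, D = Fintype.card ι := ⟨_, rfl⟩
  rw [← hD] at hcard ⊢
  have hm0 : (0 : ℝ) < m := by exact_mod_cast hm
  -- sizes
  have h87 : y ^ 8 = y * y ^ 7 := by ring
  have h7 : (1 : ℝ) ≤ y ^ 7 := one_le_pow₀ hy1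
  have h7y : y ≤ y ^ 7 := by
    calc y = y ^ 1 := (pow_one y).symm
      _ ≤ y ^ 7 := yp 1 7 (by norm_num)
  have hyexp : 3 * k * y ^ 10 ≤ Real.exp y := by
    have h1 : 3 * k * y ^ 10 * Real.exp (-y) * Real.exp y ≤ 1 * Real.exp y :=
      mul_le_mul_of_nonneg_right hye (Real.exp_nonneg _)
    rw [mul_assoc, ← Real.exp_add, neg_add_cancel, Real.exp_zero, mul_one, one_mul] at h1
    exact h1
  obtain ⟨z, hz⟩ : ∃ z : ℝ, z = m * (δ + 1 / (δ * T)) := ⟨_, rfl⟩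
  have hz0 : 0 ≤ z := by rw [hz]; positivity
  have hδT : 1 / (δ * T) ≤ 2 * δ := by
    have h1 : δ * δ * Real.exp (y ^ 8) = 1 := by
      rw [hδ, ← Real.exp_add, ← Real.exp_add, ← Real.exp_zero]
      congr 1
      ring
    rw [div_le_iff₀ (by positivity)]
    calc (1 : ℝ) = δ * δ * Real.exp (y ^ 8) := h1.symm
      _ ≤ δ * δ * (2 * T) := by
          apply mul_le_mul_of_nonneg_left _ (by positivity)
          linarith
      _ = 2 * δ * (δ * T) := by ring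
  have hz1 : z ≤ 3 * Real.exp (y ^ 7 - y ^ 8 / 2) := by
    calc z ≤ Real.exp (y ^ 7) * (δ + 2 * δ) := by rw [hz]; gcongr
      _ = 3 * (Real.exp (y ^ 7) * δ) := by ring
      _ = _ := by rw [hδ, ← Real.exp_add]; rfl
  have hexp4 : Real.exp (-2) ≤ 1 / 4 := by
    rw [Real.exp_neg, ← one_div]
    apply one_div_le_one_div_of_le (by norm_num)
    have h7 : Real.exp 2 = Real.exp 1 * Real.exp 1 := by rw [← Real.exp_add]; norm_num
    rw [h7]
    have h8 : (2 : ℝ) ≤ Real.exp 1 := by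
      have := Real.add_one_le_exp (1 : ℝ)
      linarith
    nlinarith
  have hDz : D * z ≤ Real.exp (-(y ^ 7)) / 4 := by
    calc (D : ℝ) * z ≤ (k * y ^ 10) * (3 * Real.exp (y ^ 7 - y ^ 8 / 2)) := by gcongr
      _ = (3 * k * y ^ 10) * Real.exp (y ^ 7 - y ^ 8 / 2) := by ring
      _ ≤ Real.exp y * Real.exp (y ^ 7 - y ^ 8 / 2) := by gcongr
      _ = Real.exp (y + (y ^ 7 - y ^ 8 / 2)) := by rw [Real.exp_add]
      _ ≤ Real.exp (-(y ^ 7) + (-2)) := by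
          apply Real.exp_le_exp.2
          rw [h87]
          nlinarith
      _ ≤ Real.exp (-(y ^ 7)) * (1 / 4) := by rw [Real.exp_add]; gcongr
      _ = _ := by ring
  have he1 : Real.exp (-(y ^ 7)) ≤ 1 := by
    rw [Real.exp_le_one_iff]
    linarith
  have t1 : (1 + z) ^ D - 1 ≤ Real.exp (-(y ^ 7)) / 2 := by
    have h1 : (1 + z) ^ D ≤ Real.exp (D * z) := by
      rw [Real.exp_nat_mul]
      apply pow_le_pow_left₀ (by linarith)
      have := Real.add_one_le_exp z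
      linarith
    have hDz0 : 0 ≤ D * z := by positivity
    have h2 := Real.abs_exp_sub_one_le (x := D * z) (by
      rw [abs_of_nonneg hDz0]
      linarith)
    rw [abs_of_nonneg hDz0] at h2
    have h3 := (abs_le.1 h2).2
    linarith
  have t2 : (m * ((2 * T + 1) * (4 / δ)) : ℝ) ^ D * Real.exp (-(y ^ 20)) ≤ Real.exp (-(y ^ 7)) / 4 := by
    have h1 : (m * ((2 * T + 1) * (4 / δ)) : ℝ) ≤ Real.exp (3 * y ^ 8) := by
      have e1 : (4 : ℝ) / δ = 4 * Real.exp (y ^ 8 / 2) := by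
        rw [hδ, Real.exp_neg, div_inv_eq_mul]
      have e2 : (2 * T + 1 : ℝ) ≤ 3 * Real.exp (y ^ 8) := by linarith
      have e3 : (12 : ℝ) ≤ Real.exp (y ^ 7) := by
        have h1 := Real.add_one_le_exp (y ^ 7)
        have h2 : (8 : ℝ) ^ 7 ≤ y ^ 7 := pow_le_pow_left₀ (by norm_num) hy8 7
        norm_num at h2
        linarith
      calc (m * ((2 * T + 1) * (4 / δ)) : ℝ) ≤
            Real.exp (y ^ 7) * ((3 * Real.exp (y ^ 8)) * (4 * Real.exp (y ^ 8 / 2))) := by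
            rw [e1]; gcongr
        _ = 12 * (Real.exp (y ^ 7) * Real.exp (y ^ 8) * Real.exp (y ^ 8 / 2)) := by ring
        _ ≤ Real.exp (y ^ 7) * (Real.exp (y ^ 7) * Real.exp (y ^ 8) * Real.exp (y ^ 8 / 2)) := by
            gcongr
        _ = Real.exp (y ^ 7 + (y ^ 7 + y ^ 8 + y ^ 8 / 2)) := by
            rw [Real.exp_add, Real.exp_add, Real.exp_add]
        _ ≤ Real.exp (3 * y ^ 8) := by
            apply Real.exp_le_exp.2
            rw [h87]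
            nlinarith
    have h0 : (0 : ℝ) ≤ m * ((2 * T + 1) * (4 / δ)) := by positivity
    calc _ ≤ (Real.exp (3 * y ^ 8)) ^ D * Real.exp (-(y ^ 20)) := by gcongr
      _ = Real.exp (D * (3 * y ^ 8) + -(y ^ 20)) := by rw [← Real.exp_nat_mul, Real.exp_add]
      _ ≤ Real.exp (-(y ^ 7) + (-2)) := by
          apply Real.exp_le_exp.2
          have h2 : (D : ℝ) * (3 * y ^ 8) ≤ (k * y ^ 10) * (3 * y ^ 8) := by gcongr
          have h3 : (k * y ^ 10 : ℝ) * (3 * y ^ 8) = (3 * k) * y ^ 18 := by ring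
          have h4 : (3 * k : ℝ) * y ^ 18 ≤ y * y ^ 18 := by
            apply mul_le_mul_of_nonneg_right _ (by positivity)
            have : (0 : ℝ) ≤ k := Nat.cast_nonneg k
            linarith
          have h5 : y * y ^ 18 = y ^ 19 := by ring
          have h6 : y ^ 20 = y * y ^ 19 := by ring
          have h8 : 8 * y ^ 19 ≤ y * y ^ 19 := by gcongr
          have h9 : y ^ 7 ≤ y ^ 19 := yp 7 19 (by norm_num)
          have h10 : (1 : ℝ) ≤ y ^ 19 := one_le_pow₀ hy1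
          linarith
      _ ≤ Real.exp (-(y ^ 7)) * (1 / 4) := by rw [Real.exp_add]; gcongr
      _ = _ := by ring
  rw [← hz]
  have := Real.exp_pos (-(y ^ 7))
  linarith

end Pool.Agent.X121.TV
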