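import Pool.Agent.X121.TV.Asm
import Pool.Agent.X121.TV.MeasK

set_option autoImplicit false

namespace Pool.Agent.X121.TV

open Finset Filter Pool.Agent.X121.AB Polynomial Pool.Agent.Y957.VK
open Pool.Agent.Y93.VK (ee ee_add norm_ee ee_zero ee_neg ee_eq)

theorem locPol_poly {τ : ℕ} {y : ℝ} (P : ℝ[X]) (M j : ℕ) (hj1 : 1 ≤ j) (hjd : j ≤ P.natDegree)
    (hd : (P.natDegree : ℝ) ≤ y ^ 10) (h2 : 2 ≤ y ^ 10)
    (hFT : ∀ s : ℕ, FT ((taylor (s : ℝ) P).coeff j) (Real.exp (-(y ^ 60))) τ) :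
    LocPol (fun b => P.eval (((M + b : ℕ) : ℝ))) τ y := by
  refine ⟨max P.natDegree 2, j, le_max_right _ _, ?_, ?_, ?_⟩
  · push_cast
    exact max_le hd h2
  · rw [Finset.mem_Icc]
    exact ⟨hj1, hjd.trans (le_max_left _ _)⟩
  · intro b
    refine ⟨ee ((taylor (((M + b : ℕ) : ℝ)) P).coeff 0), fun l => (taylor (((M + b : ℕ) : ℝ)) P).coeff l,
      norm_ee _, hFT (M + b), fun n => ?_⟩
    rw [← ee_add]
    congr 1
    have h3 : P.eval (((M + (b + n) : ℕ) : ℝ)) = (taylor (((M + b : ℕ) : ℝ)) P).eval (n : ℝ) := by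
      rw [taylor_eval]
      congr 1
      push_cast
      ring
    show P.eval (((M + (b + n) : ℕ) : ℝ)) = _
    rw [h3, Polynomial.eval_eq_sum_range' (n := max P.natDegree 2 + 1)
      (by rw [natDegree_taylor]; exact lt_of_le_of_lt (le_max_left _ _) (Nat.lt_succ_self _)),
      sum_range_Icc, pow_zero, mul_one]

/-- numbers of jointly finite type -/
def JFT {k : ℕ} (x : Fin k → ℝ) (c : ℝ) (τ : ℕ) : Prop :=
  ∀ q : Fin k → ℤ, q ≠ 0 → ∀ Q : ℝ, 1 ≤ Q → (∀ j, |(q j : ℝ)| ≤ Q) →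
    c / Q ^ τ ≤ dz (∑ j, (q j : ℝ) * x j)

theorem ev_c {c : ℝ} (hc : 0 < c) (τ : ℕ) :
    ∀ᶠ y : ℝ in atTop, Real.exp (-(y ^ 60)) ≤ c / (Real.exp (y ^ 8)) ^ τ := by
  filter_upwards [eventually_ge_atTop (1 : ℝ), eventually_ge_atTop ((τ : ℝ) + |Real.log c|)] with y hy1 hy2
  have hy0 : 0 < y := by linarith
  rw [le_div_iff₀ (by positivity), ← Real.exp_nat_mul, ← Real.exp_add]
  have h1 : c = Real.exp (Real.log c) := (Real.exp_log hc).symm
  rw [h1]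
  apply Real.exp_le_exp.2
  have h2 : -|Real.log c| ≤ Real.log c := neg_abs_le _
  have h3 : (1 : ℝ) ≤ y ^ 8 := one_le_pow₀ hy1
  have h4 : ((τ : ℝ) + |Real.log c|) * y ^ 8 ≤ y * y ^ 8 :=
    mul_le_mul_of_nonneg_right hy2 (by positivity)
  have h5 : y * y ^ 8 ≤ y ^ 60 := by
    calc y * y ^ 8 = y ^ 9 := by ring
      _ ≤ y ^ 60 := pow_le_pow_right₀ hy1 (by norm_num)
  have h6 : |Real.log c| ≤ |Real.log c| * y ^ 8 := le_mul_of_one_le_right (abs_nonneg _) h3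
  nlinarith

theorem dz_zero : dz 0 = 0 := by simp [dz]

theorem dz_neg (a : ℝ) : dz (-a) = dz a := by
  apply le_antisymm
  · have := dz_sub 0 a
    rw [dz_zero, zero_sub, zero_add] at this
    exact this
  · have := dz_sub 0 (-a)
    rw [dz_zero, zero_sub, zero_add, neg_neg] at this
    exact this

theorem JFT_ne {k : ℕ} {x : Fin k → ℝ} {c : ℝ} {τ : ℕ} (hc : 0 < c) (hx : JFT x c τ) (q : Fin k → ℤ)
    (hq : q ≠ 0) : ∑ j, (q j : ℝ) * x j ≠ 0 := by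
  intro h
  have h1 := hx q hq (1 + ∑ j, |(q j : ℝ)|) (by
    have : 0 ≤ ∑ j, |(q j : ℝ)| := Finset.sum_nonneg fun _ _ => abs_nonneg _
    linarith) (fun j => by
    have := Finset.single_le_sum (f := fun j => |(q j : ℝ)|) (fun _ _ => abs_nonneg _) (Finset.mem_univ j)
    linarith)
  rw [h, dz_zero] at h1
  have : 0 < c / (1 + ∑ j, |(q j : ℝ)|) ^ τ := by
    have : 0 ≤ ∑ j, |(q j : ℝ)| := Finset.sum_nonneg fun _ _ => abs_nonneg _
    positivity
  linarith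

theorem JFT_FT {k : ℕ} {x : Fin k → ℝ} {c : ℝ} {τ : ℕ} (hc : 0 < c) (hx : JFT x c τ) (q : Fin k → ℤ)
    (hq : q ≠ 0) {T c' : ℝ} (hT : 1 ≤ T) (hqT : ∀ j, |(q j : ℝ)| ≤ T) (hc' : c' ≤ c / T ^ τ) :
    FT (∑ j, (q j : ℝ) * x j) c' τ := by
  intro n hn
  have hn1 : (1 : ℝ) ≤ |(n : ℝ)| := by
    have := Int.one_le_abs hn
    exact_mod_cast this
  have h1 := hx (fun j => q j * n) (by
    intro h
    apply hq
    ext j
    have := congrFun h j
    simpa [hn] using this) (T * |(n : ℝ)|) (by nlinarith) (fun j => by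
    push_cast
    rw [abs_mul]
    exact mul_le_mul_of_nonneg_right (hqT j) (by positivity))
  have h2 : ∑ j, ((q j * n : ℤ) : ℝ) * x j = (∑ j, (q j : ℝ) * x j) * n := by
    rw [Finset.sum_mul]
    refine Finset.sum_congr rfl fun j _ => ?_
    push_cast
    ring
  rw [h2] at h1
  refine le_trans ?_ h1
  rw [mul_pow, ← div_div]
  gcongr

theorem joint_loc {k : ℕ} {x : Fin k → ℝ} {c : ℝ} {τ : ℕ} (hc : 0 < c) (hx : JFT x c τ) :
    ∀ᶠ y : ℝ in atTop, ∀ M N : ℕ, (N : ℝ) ≤ y ^ 10 → ∀ h : Fin k × Fin N → ℤ, h ≠ 0 →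
      (∀ i, |(h i : ℝ)| ≤ Real.exp (y ^ 8)) →
      LocPol (fun b => ∑ i, (h i : ℝ) * (x i.1 * (((M + b : ℕ) : ℝ)) ^ ((i.2 : ℕ) + 1))) τ y := by
  filter_upwards [ev_c hc τ, eventually_ge_atTop (2 : ℝ)] with y hyc hy2
  intro M N hN h h0 hT
  obtain ⟨P, hP⟩ : ∃ P : ℝ[X], P = ∑ i : Fin k × Fin N, C ((h i : ℝ) * x i.1) * X ^ ((i.2 : ℕ) + 1) :=
    ⟨_, rfl⟩
  have heval : ∀ t : ℝ, P.eval t = ∑ i : Fin k × Fin N, (h i : ℝ) * (x i.1 * t ^ ((i.2 : ℕ) + 1)) := by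
    intro t
    rw [hP, eval_finsetSum]
    refine Finset.sum_congr rfl fun i _ => ?_
    simp only [eval_mul, eval_C, eval_pow, eval_X]
    ring
  have hcoef : ∀ l : Fin N, P.coeff ((l : ℕ) + 1) = ∑ j, (h (j, l) : ℝ) * x j := by
    intro l
    rw [hP, finsetSum_coeff, Fintype.sum_prod_type]
    refine Finset.sum_congr rfl fun j _ => ?_
    simp only [coeff_C_mul, coeff_X_pow]
    rw [Finset.sum_eq_single l]
    · simp
    · intro b _ hb
      rw [if_neg, mul_zero]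
      intro h1
      exact hb (Fin.ext (by omega))
    · intro h1
      exact absurd (Finset.mem_univ _) h1
  have hcoef0 : P.coeff 0 = 0 := by
    rw [hP, finsetSum_coeff]
    refine Finset.sum_eq_zero fun i _ => ?_
    simp [coeff_X_pow]
  have hcoefN : ∀ l, N < l → P.coeff l = 0 := by
    intro l hl
    rw [hP, finsetSum_coeff]
    refine Finset.sum_eq_zero fun i _ => ?_
    rw [coeff_C_mul, coeff_X_pow, if_neg, mul_zero]
    have := i.2.2
    omega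
  have hexT : (1 : ℝ) ≤ Real.exp (y ^ 8) := Real.one_le_exp (by positivity)
  -- P ≠ 0
  have hP0 : P ≠ 0 := by
    intro hP0
    apply h0
    ext ⟨j, l⟩
    by_contra hne
    apply JFT_ne hc hx (fun j => h (j, l)) (fun h1 => hne (congrFun h1 j))
    rw [← hcoef l, hP0, coeff_zero]
  have hlead : P.leadingCoeff ≠ 0 := leadingCoeff_ne_zero.2 hP0
  have hdeg1 : 1 ≤ P.natDegree := by
    by_contra hlt
    apply hlead
    rw [leadingCoeff, show P.natDegree = 0 by omega, hcoef0]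
  have hdegN : P.natDegree ≤ N := by
    by_contra hlt
    apply hlead
    rw [leadingCoeff, hcoefN _ (by omega)]
  obtain ⟨l, hl⟩ : ∃ l : Fin N, P.natDegree = (l : ℕ) + 1 := ⟨⟨P.natDegree - 1, by omega⟩, by
    show P.natDegree = P.natDegree - 1 + 1
    omega⟩
  have hleadEq : P.leadingCoeff = ∑ j, (h (j, l) : ℝ) * x j := by
    rw [leadingCoeff, hl, hcoef]
  have hfun : (fun b : ℕ => ∑ i, (h i : ℝ) * (x i.1 * (((M + b : ℕ) : ℝ)) ^ ((i.2 : ℕ) + 1))) =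
      fun b => P.eval (((M + b : ℕ) : ℝ)) := by
    funext b
    rw [heval]
  rw [hfun]
  refine locPol_poly P M P.natDegree hdeg1 le_rfl ?_ ?_ fun s => ?_
  · have : (P.natDegree : ℝ) ≤ N := by exact_mod_cast hdegN
    linarith
  · calc (2 : ℝ) ≤ 2 ^ 10 := by norm_num
      _ ≤ y ^ 10 := pow_le_pow_left₀ (by norm_num) hy2 10
  · rw [coeff_taylor_natDegree, hleadEq]
    refine JFT_FT hc hx (fun j => h (j, l)) ?_ hexT (fun j => hT _) hyc
    intro h1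
    apply hlead
    rw [hleadEq]
    refine Finset.sum_eq_zero fun j _ => ?_
    have := congrFun h1 j
    simp only [Pi.zero_apply] at this
    rw [this]
    simp

/-- **digits in random bases**: total variation -/
theorem joint_y {k : ℕ} {x : Fin k → ℝ} {c : ℝ} {τ : ℕ} (hc : 0 < c) (hx : JFT x c τ) :
    ∀ᶠ y : ℝ in atTop, ∀ B : ℕ, (B : ℝ) = Real.exp (y ^ 70) → ∀ M N : ℕ, (N : ℝ) ≤ y ^ 10 →
      ∀ (m : ℕ) (hm : 1 ≤ m), (m : ℝ) ≤ Real.exp (y ^ 7) → ∀ E : Finset (Fin k × Fin N → Fin m),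
        |(((Finset.Icc 1 B).filter fun b => cell m hm
            (fun i : Fin k × Fin N => x i.1 * (((M + b : ℕ) : ℝ)) ^ ((i.2 : ℕ) + 1)) ∈ E).card : ℝ) / B -
          E.card / (m : ℝ) ^ (k * N)| ≤ Real.exp (-(y ^ 7)) := by
  filter_upwards [joint_loc hc hx, tv_final k τ] with y h1 h2
  intro B hB M N hN m hm hmy E
  have h3 := h2 B hB (Fin k × Fin N) (fun b i => x i.1 * (((M + b : ℕ) : ℝ)) ^ ((i.2 : ℕ) + 1)) (by
    rw [Fintype.card_prod, Fintype.card_fin, Fintype.card_fin]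
    push_cast
    gcongr) (fun h h0 hT => h1 M N hN h h0 hT) m hm hmy E
  rw [Fintype.card_prod, Fintype.card_fin, Fintype.card_fin] at h3
  exact h3

/-- the same in terms of `log` -/
theorem joint_main {k : ℕ} {x : Fin k → ℝ} {c : ℝ} {τ : ℕ} (hc : 0 < c) (hx : JFT x c τ) :
    ∃ H₀ : ℕ, ∀ H : ℕ, H₀ ≤ H → ∀ M N : ℕ, (N : ℝ) ≤ (Real.log H) ^ (1 / 7 : ℝ) →
      ∀ (m : ℕ) (hm : 1 ≤ m), (m : ℝ) ≤ Real.exp ((Real.log H) ^ (1 / 10 : ℝ)) →
      ∀ E : Finset (Fin k × Fin N → Fin m),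
        |(((Finset.Icc 1 H).filter fun b => cell m hm
            (fun i : Fin k × Fin N => x i.1 * (((M + b : ℕ) : ℝ)) ^ ((i.2 : ℕ) + 1)) ∈ E).card : ℝ) / H -
          E.card / (m : ℝ) ^ (k * N)| ≤ Real.exp (-((Real.log H) ^ (1 / 10 : ℝ))) := by
  have h1 : Tendsto (fun B : ℕ => (Real.log B) ^ (1 / 70 : ℝ)) atTop atTop :=
    (tendsto_rpow_atTop (by norm_num)).comp (Real.tendsto_log_atTop.comp tendsto_natCast_atTop_atTop)
  have h2 := (h1.eventually (joint_y hc hx)).and (eventually_ge_atTop 3)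
  obtain ⟨H₀, hH₀⟩ := eventually_atTop.1 h2
  refine ⟨H₀, fun H hH M N hN m hm hmy E => ?_⟩
  obtain ⟨hB, hB3⟩ := hH₀ H hH
  have hB0 : (0 : ℝ) < H := by exact_mod_cast (by omega : 0 < H)
  have hlog : 0 ≤ Real.log H := Real.log_nonneg (by exact_mod_cast (by omega : 1 ≤ H))
  have e : ∀ n : ℕ, ((Real.log H) ^ (1 / 70 : ℝ)) ^ n = (Real.log H) ^ ((n : ℝ) / 70) := by
    intro n
    rw [← Real.rpow_natCast, ← Real.rpow_mul hlog]
    congr 1
    ring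
  have h70 : ((Real.log H) ^ (1 / 70 : ℝ)) ^ 70 = Real.log H := by
    rw [e]
    norm_num
  have h10 : ((Real.log H) ^ (1 / 70 : ℝ)) ^ 10 = (Real.log H) ^ (1 / 7 : ℝ) := by
    rw [e]
    norm_num
  have h7 : ((Real.log H) ^ (1 / 70 : ℝ)) ^ 7 = (Real.log H) ^ (1 / 10 : ℝ) := by
    rw [e]
    norm_num
  have h3 := hB H (by rw [h70, Real.exp_log hB0]) M N (by rw [h10]; exact hN) m hm
    (by rw [h7]; exact hmy) E
  rw [h7] at h3
  exact h3

/-- numbers `β θ ^ w` with `β` in a number field -/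
theorem JFT_field {θ : ℝ} (hθ : MT θ) (K : IntermediateField ℚ ℝ) [FiniteDimensional ℚ K] {k : ℕ}
    (β : Fin k → K) (w : Fin k → ℕ)
    (hli : LinearIndependent ℚ (Fin.cons 1 (fun j => (β j : ℝ) * θ ^ (w j)) : Fin (k + 1) → ℝ)) :
    ∃ c : ℝ, ∃ τ : ℕ, 0 < c ∧ JFT (fun j => (β j : ℝ) * θ ^ (w j)) c τ := by
  have hfun : (fun j => (((Fin.cons 1 β : Fin (k + 1) → K) j : K) : ℝ) *
      θ ^ ((Fin.cons 0 w : Fin (k + 1) → ℕ) j)) =
      (Fin.cons 1 (fun j => (β j : ℝ) * θ ^ (w j)) : Fin (k + 1) → ℝ) := by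
    funext j
    refine Fin.cases ?_ (fun i => ?_) j
    · simp
    · simp
  obtain ⟨κ, c, hκ, hc, hm⟩ := meas_field hθ K (Fin.cons 1 β : Fin (k + 1) → K)
    (Fin.cons 0 w : Fin (k + 1) → ℕ) (by rw [hfun]; exact hli)
  rw [hfun] at hm
  obtain ⟨A, hA⟩ : ∃ A : ℝ, A = 1 + ∑ j, |(β j : ℝ) * θ ^ (w j)| + 1 := ⟨_, rfl⟩
  have hsum0 : 0 ≤ ∑ j, |(β j : ℝ) * θ ^ (w j)| := Finset.sum_nonneg fun _ _ => abs_nonneg _
  have hA1 : 1 ≤ A := by rw [hA]; linarith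
  refine ⟨c / A ^ κ, ⌈κ⌉₊, by positivity, fun q hq Q hQ hqQ => ?_⟩
  obtain ⟨S, hS⟩ : ∃ S : ℝ, S = ∑ j, (q j : ℝ) * ((β j : ℝ) * θ ^ (w j)) := ⟨_, rfl⟩
  have hSQ : |S| ≤ Q * ∑ j, |(β j : ℝ) * θ ^ (w j)| := by
    rw [hS, Finset.mul_sum]
    refine (Finset.abs_sum_le_sum_abs _ _).trans (Finset.sum_le_sum fun j _ => ?_)
    rw [abs_mul]
    exact mul_le_mul_of_nonneg_right (hqQ j) (abs_nonneg _)
  have hround : |((round S : ℤ) : ℝ)| ≤ A * Q := by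
    have h1 := abs_sub_round S
    have h2 : |((round S : ℤ) : ℝ)| ≤ |S| + 1 / 2 := by
      calc |((round S : ℤ) : ℝ)| = |S - (S - round S)| := by congr 1; ring
        _ ≤ |S| + |S - round S| := abs_sub _ _
        _ ≤ _ := by linarith
    rw [hA]
    nlinarith
  have h1 := hm (Fin.cons (-(round S)) q : Fin (k + 1) → ℤ) (by
    intro h
    apply hq
    ext j
    have := congrFun h j.succ
    simpa using this) (A * Q) (by nlinarith) (fun j => by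
    refine Fin.cases ?_ (fun i => ?_) j
    · rw [Fin.cons_zero]
      push_cast
      rw [abs_neg]
      exact hround
    · rw [Fin.cons_succ]
      have := hqQ i
      nlinarith)
  have h2 : ∑ j, (((Fin.cons (-(round S)) q : Fin (k + 1) → ℤ) j : ℤ) : ℝ) *
      (Fin.cons 1 (fun j => (β j : ℝ) * θ ^ (w j)) : Fin (k + 1) → ℝ) j = S - round S := by
    rw [Fin.sum_univ_succ]
    simp only [Fin.cons_zero, Fin.cons_succ]
    rw [← hS]
    push_cast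
    ring
  rw [h2] at h1
  have h3 : dz S = |S - round S| := rfl
  rw [← hS, h3]
  have hQ0 : 0 < Q := by linarith
  have hA0 : 0 < A := by linarith
  have h4 : (A * Q) ^ κ ≤ A ^ κ * Q ^ (⌈κ⌉₊ : ℕ) := by
    rw [Real.mul_rpow hA0.le hQ0.le, ← Real.rpow_natCast Q]
    gcongr
    exact Nat.le_ceil κ
  rw [div_div, div_le_iff₀ (by positivity)]
  calc c ≤ (A * Q) ^ κ * |S - round S| := h1
    _ ≤ (A ^ κ * Q ^ (⌈κ⌉₊ : ℕ)) * |S - round S| := by gcongr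
    _ = _ := by ring

end Pool.Agent.X121.TV
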