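import Pool.Agent.X121.AB.ET

set_option autoImplicit false

namespace Pool.Agent.X121.TV

open Finset Filter Pool.Agent.X121.AB
open Pool.Agent.Y93.VK (ee ee_add norm_ee ee_zero ee_neg ee_eq)

theorem cos_eq_ee (t : ℝ) : ((Real.cos (2 * Real.pi * t) : ℝ) : ℂ) = (ee t + ee (-t)) / 2 := by
  rw [ee_eq, ee_eq, Complex.ofReal_cos, Complex.cos]
  push_cast
  congr 2
  · congr 1; ring
  · congr 1; ring

/-- the partial sums as trigonometric polynomials -/
theorem Pn_eq (T : ℕ) (t a : ℝ) :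
    ((Pn T (t - a) : ℝ) : ℂ) =
      ∑ h ∈ Finset.Icc (-(T : ℤ)) T, (1 / (2 * (h : ℂ) ^ 2) * ee (-(h * a))) * ee (h * t) := by
  have h1 : ∀ n : ℕ, ((1 / (n : ℝ) ^ 2 * Real.cos (2 * Real.pi * n * (t - a)) : ℝ) : ℂ) =
      (1 / (2 * (((n : ℤ) : ℂ)) ^ 2) * ee (-(((n : ℤ) : ℝ) * a))) * ee (((n : ℤ) : ℝ) * t) +
      (1 / (2 * (((-(n : ℤ) : ℤ) : ℂ)) ^ 2) * ee (-(((-(n : ℤ) : ℤ) : ℝ) * a))) *
        ee (((-(n : ℤ) : ℤ) : ℝ) * t) := by
    intro n
    have e1 : 2 * Real.pi * n * (t - a) = 2 * Real.pi * (n * (t - a)) := by ring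
    rw [e1, Complex.ofReal_mul, cos_eq_ee, mul_assoc, mul_assoc, ← ee_add, ← ee_add]
    have e2 : -(((n : ℤ) : ℝ) * a) + ((n : ℤ) : ℝ) * t = n * (t - a) := by push_cast; ring
    have e3 : -(((-(n : ℤ) : ℤ) : ℝ) * a) + ((-(n : ℤ) : ℤ) : ℝ) * t = -(n * (t - a)) := by
      push_cast; ring
    rw [e2, e3]
    push_cast
    ring
  have h2 : ∀ (T : ℕ) (G : ℤ → ℂ), ∑ h ∈ Finset.Icc (-(T : ℤ)) T, G h =
      G 0 + ∑ n ∈ Finset.range T, (G ((n : ℤ) + 1) + G (-((n : ℤ) + 1))) := by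
    intro T G
    induction T with
    | zero => simp
    | succ T ih =>
      have e : Finset.Icc (-((T + 1 : ℕ) : ℤ)) ((T + 1 : ℕ) : ℤ) =
          insert (((T : ℤ) + 1)) (insert (-((T : ℤ) + 1)) (Finset.Icc (-(T : ℤ)) T)) := by
        ext x
        simp only [Finset.mem_insert, Finset.mem_Icc]
        push_cast
        omega
      rw [e, Finset.sum_insert, Finset.sum_insert, ih, Finset.sum_range_succ]
      · ring
      · simp only [Finset.mem_Icc]; omega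
      · simp only [Finset.mem_insert, Finset.mem_Icc]; omega
  rw [h2]
  unfold Pn
  rw [Finset.sum_range_succ', Complex.ofReal_add, Complex.ofReal_sum]
  have h3 : ((1 / (((0 : ℕ) : ℝ)) ^ 2 * Real.cos (2 * Real.pi * ((0 : ℕ) : ℝ) * (t - a)) : ℝ) : ℂ) =
      (1 / (2 * (((0 : ℤ) : ℂ)) ^ 2) * ee (-(((0 : ℤ) : ℝ) * a))) * ee (((0 : ℤ) : ℝ) * t) := by
    simp
  rw [h3, add_comm]
  congr 1
  refine Finset.sum_congr rfl fun n _ => ?_
  rw [h1 (n + 1)]
  push_cast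
  rfl

/-- a trigonometric majorant -/
theorem exists_maj (T : ℕ) (hT : 1 ≤ T) {δ : ℝ} (hδ : 0 < δ) (hδ1 : δ ≤ 1) {u v : ℝ} (hu : 0 ≤ u)
    (huv : u ≤ v) (hv : v ≤ 1) :
    ∃ (g : ℝ → ℝ) (w : ℤ → ℂ), (∀ t : ℝ, ((g t : ℝ) : ℂ) = ∑ h ∈ Finset.Icc (-(T : ℤ)) T, w h * ee (h * t)) ∧
      (∀ t, 0 ≤ g t) ∧ (∀ t, u ≤ Int.fract t → Int.fract t < v → 1 ≤ g t) ∧
      w 0 = (((v - u) + δ + 1 / (δ * T) : ℝ) : ℂ) ∧ ∀ h, ‖w h‖ ≤ 4 / δ := by
  classical
  have hpi := Real.pi_pos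
  have hpi3 := Real.pi_gt_three
  have hT0 : (1 : ℝ) ≤ T := by exact_mod_cast hT
  obtain ⟨c0, hc0⟩ : ∃ c0 : ℝ, c0 = (v - u) + δ + 1 / (δ * T) := ⟨_, rfl⟩
  have hmain : ∀ t : ℝ, (if u ≤ Int.fract t ∧ Int.fract t < v then (1 : ℝ) else 0) ≤
      c0 + 1 / (2 * δ * Real.pi ^ 2) * (Pn T (t - v) - Pn T (t - (v + δ)) -
      Pn T (t - (u - δ)) + Pn T (t - u)) := by
    intro t
    rw [ind_eq hu huv hv t]
    have s1 := saw_le hδ hδ1 (t - v)
    have s2 := saw_ge hδ hδ1 (t - u)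
    have a1 := (abs_le.1 (be_approx hT (t - v))).2
    have a2 := (abs_le.1 (be_approx hT (t - (v + δ)))).1
    have a3 := (abs_le.1 (be_approx hT (t - (u - δ)))).1
    have a4 := (abs_le.1 (be_approx hT (t - u))).2
    rw [show t - v - δ = t - (v + δ) by ring] at s1
    rw [show t - u + δ = t - (u - δ) by ring] at s2
    have h1 : 2 * δ * (saw (t - v) - saw (t - u)) ≤
        (be (t - v) - be (t - (v + δ)) - be (t - (u - δ)) + be (t - u)) + 2 * δ ^ 2 := by
      linarith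
    have h2 : Real.pi ^ 2 * (be (t - v) - be (t - (v + δ)) - be (t - (u - δ)) + be (t - u)) ≤
        (Pn T (t - v) - Pn T (t - (v + δ)) - Pn T (t - (u - δ)) + Pn T (t - u)) + 4 * (1 / T) := by
      linarith
    have h3 : (saw (t - v) - saw (t - u)) ≤
        (1 / (2 * δ)) * ((be (t - v) - be (t - (v + δ)) - be (t - (u - δ)) + be (t - u)) +
          2 * δ ^ 2) := by
      rw [one_div, ← div_eq_inv_mul, le_div_iff₀ (by positivity)]
      linarith
    have h4 : (be (t - v) - be (t - (v + δ)) - be (t - (u - δ)) + be (t - u)) ≤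
        (1 / Real.pi ^ 2) * ((Pn T (t - v) - Pn T (t - (v + δ)) - Pn T (t - (u - δ)) +
          Pn T (t - u)) + 4 * (1 / T)) := by
      rw [one_div, ← div_eq_inv_mul, le_div_iff₀ (by positivity)]
      linarith
    have h5 : (1 / (2 * δ)) * ((be (t - v) - be (t - (v + δ)) - be (t - (u - δ)) + be (t - u)) +
          2 * δ ^ 2) ≤ (1 / (2 * δ)) * ((1 / Real.pi ^ 2) * ((Pn T (t - v) - Pn T (t - (v + δ)) -
          Pn T (t - (u - δ)) + Pn T (t - u)) + 4 * (1 / T)) + 2 * δ ^ 2) := by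
      apply mul_le_mul_of_nonneg_left _ (by positivity)
      linarith
    have h6 : (1 / (2 * δ)) * ((1 / Real.pi ^ 2) * ((Pn T (t - v) - Pn T (t - (v + δ)) -
          Pn T (t - (u - δ)) + Pn T (t - u)) + 4 * (1 / T)) + 2 * δ ^ 2) =
        1 / (2 * δ * Real.pi ^ 2) * (Pn T (t - v) - Pn T (t - (v + δ)) -
          Pn T (t - (u - δ)) + Pn T (t - u)) + (2 / Real.pi ^ 2) * (1 / (δ * T)) + δ := by
      have hT' : (T : ℝ) ≠ 0 := by linarith
      field_simp
      ring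
    have h7 : (2 / Real.pi ^ 2) * (1 / (δ * T)) ≤ 1 / (δ * T) := by
      have : 2 / Real.pi ^ 2 ≤ 1 := by
        rw [div_le_one (by positivity)]
        nlinarith
      have h8 : 0 ≤ 1 / (δ * T) := by positivity
      nlinarith
    rw [hc0]
    linarith
  refine ⟨fun t => c0 + 1 / (2 * δ * Real.pi ^ 2) * (Pn T (t - v) - Pn T (t - (v + δ)) -
      Pn T (t - (u - δ)) + Pn T (t - u)),
    fun h => (if h = 0 then (c0 : ℂ) else 0) + 1 / (2 * δ * Real.pi ^ 2) * (1 / (2 * (h : ℂ) ^ 2) *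
      (ee (-(h * v)) - ee (-(h * (v + δ))) - ee (-(h * (u - δ))) + ee (-(h * u)))), ?_, ?_, ?_, ?_, ?_⟩
  · intro t
    have h1 : ∀ h : ℤ, ((if h = 0 then (c0 : ℂ) else 0) + 1 / (2 * δ * Real.pi ^ 2) *
        (1 / (2 * (h : ℂ) ^ 2) * (ee (-(h * v)) - ee (-(h * (v + δ))) - ee (-(h * (u - δ))) +
          ee (-(h * u))))) * ee (h * t) = (if h = 0 then (c0 : ℂ) else 0) * ee (h * t) +
        1 / (2 * δ * Real.pi ^ 2) * (((1 / (2 * (h : ℂ) ^ 2) * ee (-(h * v))) * ee (h * t) -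
          (1 / (2 * (h : ℂ) ^ 2) * ee (-(h * (v + δ)))) * ee (h * t) -
          (1 / (2 * (h : ℂ) ^ 2) * ee (-(h * (u - δ)))) * ee (h * t)) +
          (1 / (2 * (h : ℂ) ^ 2) * ee (-(h * u))) * ee (h * t)) := by
      intro h; ring
    simp only [h1]
    rw [Finset.sum_add_distrib, ← Finset.mul_sum, Finset.sum_add_distrib, Finset.sum_sub_distrib,
      Finset.sum_sub_distrib, ← Pn_eq, ← Pn_eq, ← Pn_eq, ← Pn_eq]
    have h2 : ∑ h ∈ Finset.Icc (-(T : ℤ)) T, (if h = 0 then (c0 : ℂ) else 0) * ee (h * t) = c0 := by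
      rw [Finset.sum_eq_single_of_mem 0 (by rw [Finset.mem_Icc]; omega)]
      · simp [ee_zero]
      · intro b _ hb
        rw [if_neg hb, zero_mul]
    rw [h2]
    push_cast
    ring
  · intro t
    refine le_trans ?_ (hmain t)
    split_ifs <;> norm_num
  · intro t h1 h2
    have := hmain t
    rw [if_pos ⟨h1, h2⟩] at this
    exact this
  · simp [hc0]
  · intro h
    have hd : (1 : ℝ) ≤ 1 / δ := by rw [le_div_iff₀ hδ]; linarith
    have hc0' : 0 ≤ c0 := by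
      rw [hc0]
      have : 0 ≤ 1 / (δ * T) := by positivity
      linarith
    have hc1 : c0 ≤ 3 / δ := by
      rw [hc0]
      have h1 : v - u ≤ 1 := by linarith
      have h2 : 1 / (δ * T) ≤ 1 / δ := by
        apply one_div_le_one_div_of_le hδ
        exact le_mul_of_one_le_right hδ.le hT0
      have e : 3 / δ = 1 / δ + 1 / δ + 1 / δ := by ring
      rw [e]
      linarith
    by_cases hh : h = 0
    · subst hh
      simp only [if_true, Int.cast_zero]
      norm_num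
      rw [abs_of_nonneg hc0']
      refine hc1.trans ?_
      gcongr
      norm_num
    · beta_reduce
      rw [if_neg hh, zero_add, norm_mul, norm_mul]
      have hh1 : (1 : ℝ) ≤ |(h : ℝ)| := by
        have := Int.one_le_abs hh
        exact_mod_cast this
      have e1 : ‖(1 / (2 * (δ : ℂ) * (Real.pi : ℂ) ^ 2) : ℂ)‖ ≤ 1 / δ := by
        rw [norm_div, norm_one, norm_mul, norm_mul, norm_pow, Complex.norm_real, Complex.norm_real,
          Real.norm_eq_abs, Real.norm_eq_abs, abs_of_pos hδ, abs_of_pos hpi, Complex.norm_ofNat]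
        apply one_div_le_one_div_of_le hδ
        have : 1 ≤ 2 * Real.pi ^ 2 := by nlinarith
        nlinarith
      have e2 : ‖(1 / (2 * (h : ℂ) ^ 2) : ℂ)‖ ≤ 1 := by
        rw [norm_div, norm_one, norm_mul, norm_pow, Complex.norm_ofNat, Complex.norm_intCast,
          div_le_one (by positivity)]
        nlinarith
      have e3 : ‖(ee (-(h * v)) - ee (-(h * (v + δ))) - ee (-(h * (u - δ))) + ee (-(h * u)) : ℂ)‖ ≤ 4 := by
        calc _ ≤ ‖ee (-(h * v)) - ee (-(h * (v + δ))) - ee (-(h * (u - δ)))‖ + ‖ee (-(h * u))‖ :=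
              norm_add_le _ _
          _ ≤ (‖ee (-(h * v)) - ee (-(h * (v + δ)))‖ + ‖ee (-(h * (u - δ)))‖) + ‖ee (-(h * u))‖ := by
              gcongr; exact norm_sub_le _ _
          _ ≤ ((‖ee (-(h * v))‖ + ‖ee (-(h * (v + δ)))‖) + ‖ee (-(h * (u - δ)))‖) + ‖ee (-(h * u))‖ := by
              gcongr; exact norm_sub_le _ _
          _ = 4 := by rw [norm_ee, norm_ee, norm_ee, norm_ee]; norm_num
      calc _ ≤ (1 / δ) * (1 * 4) := by
            apply mul_le_mul e1 _ (by positivity) (by positivity)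
            exact mul_le_mul e2 e3 (norm_nonneg _) (by norm_num)
        _ = 4 / δ := by ring

end Pool.Agent.X121.TV
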