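import Pool.Agent.X121.TV.Tup
import Pool.Agent.X121.AB.Fin

set_option autoImplicit false

namespace Pool.Agent.X121.TV

open Finset Filter Pool.Agent.X121.AB Polynomial Pool.Agent.Y957.VK
open Pool.Agent.Y93.VK (ee ee_add norm_ee ee_zero ee_neg ee_eq)

theorem dz_add_int (a : ℝ) (z : ℤ) : dz (a + z) = dz a := by
  unfold dz
  rw [round_add_intCast]
  push_cast
  congr 1
  ring

theorem FT_add_int {a c : ℝ} {τ : ℕ} (h : FT a c τ) (z : ℤ) : FT (a + z) c τ := by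
  intro q hq
  have h1 := h q hq
  have e : (a + z) * (q : ℝ) = a * q + ((z * q : ℤ) : ℝ) := by push_cast; ring
  rw [e, dz_add_int]
  exact h1

theorem shift_loc {k : ℕ} {x : Fin k → ℝ} {c : ℝ} {τ : ℕ} (hc : 0 < c) (hx : JFT x c τ) :
    ∀ᶠ y : ℝ in atTop, ∀ M N : ℕ, (N : ℝ) + 1 ≤ y ^ 10 → ∀ h : Fin k × Fin N → ℤ, h ≠ 0 →
      (∀ i, |(h i : ℝ)| ≤ Real.exp (y ^ 8)) →
      LocPol (fun b => ∑ i, (h i : ℝ) * ((x i.1 + ((M + b : ℕ) : ℝ)) ^ ((i.2 : ℕ) + 2))) τ y := by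
  filter_upwards [ev_c hc (2 * τ), eventually_ge_atTop (2 : ℝ), ev_pow_exp 1 10 (ε := 1) (by norm_num)]
    with y hyc hy2 hye
  intro M N hN h h0 hT
  have hy1 : (1 : ℝ) ≤ y := by linarith
  obtain ⟨P, hP⟩ : ∃ P : ℝ[X], P = ∑ i : Fin k × Fin N, C (h i : ℝ) * (X + C (x i.1)) ^ ((i.2 : ℕ) + 2) :=
    ⟨_, rfl⟩
  have heval : ∀ t : ℝ, P.eval t = ∑ i : Fin k × Fin N, (h i : ℝ) * ((x i.1 + t) ^ ((i.2 : ℕ) + 2)) := by
    intro t
    rw [hP, eval_finsetSum]
    refine Finset.sum_congr rfl fun i _ => ?_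
    simp only [eval_mul, eval_C, eval_pow, eval_add, eval_X]
    ring
  have htay : ∀ s : ℝ, taylor s P = ∑ i : Fin k × Fin N, C (h i : ℝ) * (X + C (s + x i.1)) ^ ((i.2 : ℕ) + 2) := by
    intro s
    rw [hP, map_sum]
    refine Finset.sum_congr rfl fun i _ => ?_
    rw [taylor_mul, taylor_C, taylor_pow, map_add, taylor_X, taylor_C, add_assoc, ← C_add]
  -- the largest exponent
  have hex : ∃ d : ℕ, ∃ hd : d < N, (fun j => h (j, ⟨d, hd⟩)) ≠ 0 ∧
      ∀ (l : Fin N), d < l → ∀ j, h (j, l) = 0 := by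
    classical
    have hne : (Finset.univ.filter fun l : Fin N => ∃ j, h (j, l) ≠ 0).Nonempty := by
      by_contra hemp
      rw [Finset.not_nonempty_iff_eq_empty] at hemp
      apply h0
      ext ⟨j, l⟩
      by_contra hne
      have : l ∈ (Finset.univ.filter fun l : Fin N => ∃ j, h (j, l) ≠ 0) := by
        rw [Finset.mem_filter]
        exact ⟨Finset.mem_univ _, j, hne⟩
      rw [hemp] at this
      exact absurd this (Finset.notMem_empty _)
    obtain ⟨l, hl, hmax⟩ := Finset.exists_max_image _ (fun l : Fin N => (l : ℕ)) hne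
    rw [Finset.mem_filter] at hl
    obtain ⟨-, j, hj⟩ := hl
    refine ⟨l, l.2, fun h1 => hj (congrFun h1 j), fun l' hl' j' => ?_⟩
    by_contra hne'
    have := hmax l' (by rw [Finset.mem_filter]; exact ⟨Finset.mem_univ _, j', hne'⟩)
    omega
  obtain ⟨d, hd, hd0, hdmax⟩ := hex
  obtain ⟨A, hA⟩ : ∃ A : ℝ, A = ∑ j, (((d + 2 : ℕ) : ℤ) * h (j, ⟨d, hd⟩) : ℤ) * x j := ⟨_, rfl⟩
  -- the coefficient
  have hcoef : ∀ s : ℕ, ∃ z : ℤ, (taylor (s : ℝ) P).coeff (d + 1) = A + z := by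
    intro s
    refine ⟨∑ j, ((d + 2 : ℕ) : ℤ) * h (j, ⟨d, hd⟩) * s +
      ∑ j, ∑ l : Fin N, (if (l : ℕ) + 1 = d then h (j, l) else 0), ?_⟩
    rw [htay, finsetSum_coeff, Fintype.sum_prod_type]
    have h1 : ∀ j, ∑ l : Fin N, (C (h (j, l) : ℝ) * (X + C ((s : ℝ) + x j)) ^ ((l : ℕ) + 2)).coeff (d + 1) =
        ((d + 2 : ℕ) : ℝ) * h (j, ⟨d, hd⟩) * (s + x j) +
          ∑ l : Fin N, (if (l : ℕ) + 1 = d then (h (j, l) : ℝ) else 0) := by
      intro j
      have h2 : ∀ l : Fin N, (C (h (j, l) : ℝ) * (X + C ((s : ℝ) + x j)) ^ ((l : ℕ) + 2)).coeff (d + 1) =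
          (if l = ⟨d, hd⟩ then ((d + 2 : ℕ) : ℝ) * h (j, ⟨d, hd⟩) * (s + x j) else 0) +
            (if (l : ℕ) + 1 = d then (h (j, l) : ℝ) else 0) := by
        intro l
        rw [coeff_C_mul, coeff_X_add_C_pow]
        by_cases c1 : d < (l : ℕ)
        · rw [hdmax l c1 j, if_neg (fun h => by rw [h] at c1; simp at c1), if_neg (by omega)]
          simp
        · by_cases c2 : (l : ℕ) = d
          · have : l = ⟨d, hd⟩ := Fin.ext c2
            subst this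
            rw [if_pos rfl, if_neg (by simp)]
            have e1 : d + 2 - (d + 1) = 1 := by omega
            have e2 : (d + 2).choose (d + 1) = d + 2 := by
              rw [show d + 2 = (d + 1) + 1 by rfl, Nat.choose_succ_self_right]
            simp only [e1, e2, pow_one]
            push_cast
            ring
          · rw [if_neg (fun h => c2 (by rw [h]))]
            by_cases c3 : (l : ℕ) + 1 = d
            · rw [if_pos c3]
              have e1 : (l : ℕ) + 2 = d + 1 := by omega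
              rw [e1, Nat.sub_self, pow_zero, Nat.choose_self]
              simp
            · rw [if_neg c3, Nat.choose_eq_zero_of_lt (by omega)]
              simp
      rw [Finset.sum_congr rfl fun l _ => h2 l, Finset.sum_add_distrib, Finset.sum_ite_eq' Finset.univ]
      simp
    rw [Finset.sum_congr rfl fun j _ => h1 j, Finset.sum_add_distrib, hA]
    push_cast
    have h3 : ∀ j, ((d : ℝ) + 2) * (h (j, ⟨d, hd⟩) : ℝ) * ((s : ℝ) + x j) =
        ((d : ℝ) + 2) * (h (j, ⟨d, hd⟩) : ℝ) * x j + ((d : ℝ) + 2) * (h (j, ⟨d, hd⟩) : ℝ) * s := by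
      intro j; ring
    rw [Finset.sum_congr rfl fun j _ => h3 j, Finset.sum_add_distrib]
    ring
  have hyexp : y ^ 10 ≤ Real.exp y := by
    have h1 : 1 * y ^ 10 * Real.exp (-y) * Real.exp y ≤ 1 * Real.exp y :=
      mul_le_mul_of_nonneg_right hye (Real.exp_nonneg _)
    rw [mul_assoc, ← Real.exp_add, neg_add_cancel, Real.exp_zero, mul_one, one_mul, one_mul] at h1
    exact h1
  have hdR : ((d + 2 : ℕ) : ℝ) ≤ y ^ 10 := by
    have : ((d + 2 : ℕ) : ℝ) ≤ (N : ℝ) + 1 := by exact_mod_cast (by omega : d + 2 ≤ N + 1)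
    linarith
  have hFTA : FT A (Real.exp (-(y ^ 60))) τ := by
    rw [hA]
    refine JFT_FT hc hx (fun j => ((d + 2 : ℕ) : ℤ) * h (j, ⟨d, hd⟩)) ?_ (T := Real.exp (2 * y ^ 8))
      (Real.one_le_exp (by positivity)) (fun j => ?_) ?_
    · intro h1
      apply hd0
      ext j
      have h2 := congrFun h1 j
      simp only [Pi.zero_apply] at h2 ⊢
      rcases mul_eq_zero.1 h2 with h3 | h3
      · exfalso
        have : (d + 2 : ℕ) = 0 := by exact_mod_cast h3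
        omega
      · exact h3
    · push_cast
      rw [abs_mul]
      have e1 : |((d : ℝ) + 2)| ≤ Real.exp (y ^ 8) := by
        rw [abs_of_nonneg (by positivity)]
        have h3 : ((d + 2 : ℕ) : ℝ) = (d : ℝ) + 2 := by push_cast; ring
        rw [← h3]
        refine hdR.trans (hyexp.trans (Real.exp_le_exp.2 ?_))
        calc y = y ^ 1 := (pow_one y).symm
          _ ≤ y ^ 8 := pow_le_pow_right₀ hy1 (by norm_num)
      calc |((d : ℝ) + 2)| * |(h (j, ⟨d, hd⟩) : ℝ)| ≤ Real.exp (y ^ 8) * Real.exp (y ^ 8) :=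
            mul_le_mul e1 (hT _) (abs_nonneg _) (Real.exp_nonneg _)
        _ = Real.exp (2 * y ^ 8) := by rw [← Real.exp_add]; congr 1; ring
    · refine hyc.trans (le_of_eq ?_)
      congr 1
      rw [pow_mul, ← Real.exp_nat_mul (y ^ 8) 2]
      norm_num
  have hAne : ∀ z : ℤ, A + z ≠ 0 := by
    intro z hz
    have h1 := FT_add_int hFTA z 1 one_ne_zero
    rw [hz, zero_mul, dz_zero] at h1
    have : 0 < Real.exp (-(y ^ 60)) / |((1 : ℤ) : ℝ)| ^ τ := by
      have := Real.exp_pos (-(y ^ 60))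
      simp
      positivity
    linarith
  have hdeg1 : d + 1 ≤ P.natDegree := by
    obtain ⟨z, hz⟩ := hcoef 0
    have : P.coeff (d + 1) ≠ 0 := by
      rw [Nat.cast_zero, taylor_zero] at hz
      rw [hz]
      exact hAne z
    exact le_natDegree_of_ne_zero this
  have hdegN : P.natDegree ≤ N + 1 := by
    rw [hP]
    refine natDegree_sum_le_of_forall_le _ _ fun i _ => ?_
    refine (natDegree_C_mul_le _ _).trans ?_
    rw [natDegree_pow, natDegree_X_add_C, mul_one]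
    have := i.2.2
    omega
  have hfun : (fun b : ℕ => ∑ i, (h i : ℝ) * ((x i.1 + ((M + b : ℕ) : ℝ)) ^ ((i.2 : ℕ) + 2))) =
      fun b => P.eval (((M + b : ℕ) : ℝ)) := by
    funext b
    rw [heval]
  rw [hfun]
  refine locPol_poly P M (d + 1) (by omega) hdeg1 ?_ ?_ fun s => ?_
  · have : (P.natDegree : ℝ) ≤ ((N + 1 : ℕ) : ℝ) := by exact_mod_cast hdegN
    push_cast at this
    linarith
  · calc (2 : ℝ) ≤ 2 ^ 10 := by norm_num
      _ ≤ y ^ 10 := pow_le_pow_left₀ (by norm_num) hy2 10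
  · obtain ⟨z, hz⟩ := hcoef s
    rw [hz]
    exact FT_add_int hFTA z

/-- from the variable `y` to `log H` -/
theorem to_log {Q : ℝ → ℕ → Prop} (h : ∀ᶠ y : ℝ in atTop, ∀ B : ℕ, (B : ℝ) = Real.exp (y ^ 70) → Q y B) :
    ∃ H₀ : ℕ, ∀ H : ℕ, H₀ ≤ H → ∃ y : ℝ, 0 < y ∧ Q y H ∧ y ^ 10 = (Real.log H) ^ (1 / 7 : ℝ) ∧
      y ^ 7 = (Real.log H) ^ (1 / 10 : ℝ) ∧ 3 ≤ H := by
  have h1 : Tendsto (fun B : ℕ => (Real.log B) ^ (1 / 70 : ℝ)) atTop atTop :=
    (tendsto_rpow_atTop (by norm_num)).comp (Real.tendsto_log_atTop.comp tendsto_natCast_atTop_atTop)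
  have h2 := ((h1.eventually h).and (h1.eventually (eventually_gt_atTop 0))).and (eventually_ge_atTop 3)
  obtain ⟨H₀, hH₀⟩ := eventually_atTop.1 h2
  refine ⟨H₀, fun H hH => ?_⟩
  obtain ⟨⟨hB, hpos⟩, hB3⟩ := hH₀ H hH
  have hB0 : (0 : ℝ) < H := by exact_mod_cast (by omega : 0 < H)
  have hlog : 0 ≤ Real.log H := Real.log_nonneg (by exact_mod_cast (by omega : 1 ≤ H))
  have e : ∀ n : ℕ, ((Real.log H) ^ (1 / 70 : ℝ)) ^ n = (Real.log H) ^ ((n : ℝ) / 70) := by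
    intro n
    rw [← Real.rpow_natCast, ← Real.rpow_mul hlog]
    congr 1
    ring
  refine ⟨(Real.log H) ^ (1 / 70 : ℝ), hpos, hB H ?_, ?_, ?_, hB3⟩
  · have h70 : ((Real.log H) ^ (1 / 70 : ℝ)) ^ 70 = Real.log H := by
      rw [e]
      norm_num
    rw [h70, Real.exp_log hB0]
  · rw [e]
    norm_num
  · rw [e]
    norm_num

/-- arrays of fractional parts -/
def ArrRand (k : ℕ) (e₀ : ℕ) (X : ℕ → Fin k → ℕ → ℝ) : Prop :=
  ∃ H₀ : ℕ, ∀ H : ℕ, H₀ ≤ H → ∀ M N m : ℕ, 1 ≤ m → (N : ℝ) + e₀ ≤ (Real.log H) ^ (1 / 7 : ℝ) →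
    (m : ℝ) ≤ Real.exp ((Real.log H) ^ (1 / 10 : ℝ)) → ∀ E : Finset (Fin k → Fin N → Fin m),
      |(((Finset.Ioc M (M + H)).filter fun b : ℕ => ∃ A ∈ E, ∀ (j : Fin k) (i : Fin N),
          ⌊m * Int.fract (X b j i)⌋₊ = (A j i : ℕ)).card : ℝ) / H -
        E.card / (m : ℝ) ^ (k * N)| ≤ Real.exp (-((Real.log H) ^ (1 / 10 : ℝ)))

theorem arr_of {k e₀ τ : ℕ} (X : ℕ → Fin k → ℕ → ℝ)
    (hloc : ∀ᶠ y : ℝ in atTop, ∀ M N : ℕ, (N : ℝ) + e₀ ≤ y ^ 10 → ∀ h : Fin k × Fin N → ℤ, h ≠ 0 →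
      (∀ i, |(h i : ℝ)| ≤ Real.exp (y ^ 8)) →
      LocPol (fun b => ∑ i, (h i : ℝ) * X (M + b) i.1 i.2) τ y) : ArrRand k e₀ X := by
  classical
  have h0 : ∀ᶠ y : ℝ in atTop, ∀ B : ℕ, (B : ℝ) = Real.exp (y ^ 70) → ∀ M N m : ℕ, 1 ≤ m →
      (N : ℝ) + e₀ ≤ y ^ 10 → (m : ℝ) ≤ Real.exp (y ^ 7) → ∀ E : Finset (Fin k → Fin N → Fin m),
      |(((Finset.Ioc M (M + B)).filter fun b : ℕ => ∃ A ∈ E, ∀ (j : Fin k) (i : Fin N),
          ⌊m * Int.fract (X b j i)⌋₊ = (A j i : ℕ)).card : ℝ) / B -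
        E.card / (m : ℝ) ^ (k * N)| ≤ Real.exp (-(y ^ 7)) := by
    filter_upwards [hloc, tv_final k τ] with y hy1 hy2
    intro B hB M N m hm hN hmy E
    have hN' : (N : ℝ) ≤ y ^ 10 := by
      have : (0 : ℝ) ≤ e₀ := Nat.cast_nonneg _
      linarith
    have h1 := hy2 B hB (Fin k × Fin N) (fun b i => X (M + b) i.1 i.2) (by
      rw [Fintype.card_prod, Fintype.card_fin, Fintype.card_fin]
      push_cast
      gcongr) (fun h h0 hT => hy1 M N hN h h0 hT) m hm hmy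
      (E.map (Equiv.curry (Fin k) (Fin N) (Fin m)).symm.toEmbedding)
    rw [Fintype.card_prod, Fintype.card_fin, Fintype.card_fin, Finset.card_map] at h1
    have h2 : ((Finset.Ioc M (M + B)).filter fun b : ℕ => ∃ A ∈ E, ∀ (j : Fin k) (i : Fin N),
        ⌊m * Int.fract (X b j i)⌋₊ = (A j i : ℕ)).card =
        ((Finset.Icc 1 B).filter fun b => cell m hm
              (fun i : Fin k × Fin N => X (M + b) i.1 i.2) ∈
                (E.map (Equiv.curry (Fin k) (Fin N) (Fin m)).symm.toEmbedding)).card := by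
      symm
      refine Finset.card_bij (fun b _ => M + b) ?_ ?_ ?_
      · intro b hb
        rw [Finset.mem_filter, Finset.mem_Icc] at hb
        obtain ⟨⟨hb1, hb2⟩, hb3⟩ := hb
        rw [Finset.mem_map] at hb3
        obtain ⟨A, hA, hA2⟩ := hb3
        rw [Finset.mem_filter, Finset.mem_Ioc]
        refine ⟨⟨by omega, by omega⟩, A, hA, fun j i => ?_⟩
        have := congrFun hA2 ((j, i) : Fin k × Fin N)
        have h3 := congrArg (fun z : Fin m => (z : ℕ)) this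
        exact h3.symm
      · intro b _ b' _ hbb
        omega
      · intro b hb
        rw [Finset.mem_filter, Finset.mem_Ioc] at hb
        obtain ⟨⟨hb1, hb2⟩, A, hA, hA2⟩ := hb
        refine ⟨b - M, ?_, by omega⟩
        rw [Finset.mem_filter, Finset.mem_Icc]
        refine ⟨⟨by omega, by omega⟩, ?_⟩
        rw [Finset.mem_map]
        refine ⟨A, hA, ?_⟩
        have e : M + (b - M) = b := by omega
        rw [e]
        funext ⟨j, i⟩
        apply Fin.ext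
        exact (hA2 j i).symm
    rw [h2]
    exact h1
  obtain ⟨H₀, h⟩ := to_log h0
  refine ⟨H₀, fun H hH M N m hm hN hmH E => ?_⟩
  obtain ⟨y, hy0, hQ, e1, e2, -⟩ := h H hH
  have := hQ M N m hm (by rw [e1]; exact hN) (by rw [e2]; exact hmH) E
  rw [e2] at this
  exact this

/-- **powers of `x + n`** for random integers `n` -/
theorem powers_rand {k : ℕ} {x : Fin k → ℝ} {c : ℝ} {τ : ℕ} (hc : 0 < c) (hx : JFT x c τ) :
    ArrRand k 1 (fun b j i => (x j + (b : ℝ)) ^ (i + 2)) := by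
  refine arr_of (τ := τ) _ ?_
  filter_upwards [shift_loc hc hx] with y hy
  intro M N hN h h0 hT
  exact hy M N (by exact_mod_cast hN) h h0 hT

theorem JFT_alg {θ : ℝ} (hθ : MT θ) {k : ℕ} (β : Fin k → ℝ) (w : Fin k → ℕ)
    (hβ : ∀ j, IsAlgebraic ℚ (β j))
    (hli : LinearIndependent ℚ (Fin.cons 1 (fun j => β j * θ ^ w j) : Fin (k + 1) → ℝ)) :
    ∃ c : ℝ, ∃ τ : ℕ, 0 < c ∧ JFT (fun j => β j * θ ^ w j) c τ := by
  classical
  obtain ⟨K, hK⟩ : ∃ K : IntermediateField ℚ ℝ, K = IntermediateField.adjoin ℚ (Set.range β) := ⟨_, rfl⟩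
  have hfd : FiniteDimensional ℚ K := by
    rw [hK]
    exact IntermediateField.finiteDimensional_adjoin (by
      rintro _ ⟨j, rfl⟩
      exact (hβ j).isIntegral)
  have hmem : ∀ j, β j ∈ K := by
    intro j
    rw [hK]
    exact IntermediateField.subset_adjoin _ _ ⟨j, rfl⟩
  exact JFT_field hθ K (fun j => (⟨β j, hmem j⟩ : K)) w hli

theorem JFT_two {θ : ℝ} (hθ : MT θ) : ∃ c : ℝ, ∃ τ : ℕ, 0 < c ∧ JFT ![θ, √2] c τ := by
  have h := JFT_alg hθ (![1, √2] : Fin 2 → ℝ) (![1, 0] : Fin 2 → ℕ) (by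
    intro j
    fin_cases j
    · exact isAlgebraic_one
    · refine ⟨X ^ 2 - C 2, ?_, by simp⟩
      exact X_pow_sub_C_ne_zero (by norm_num) _) (li_two (transc_of hθ))
  have e : (fun j => (![1, √2] : Fin 2 → ℝ) j * θ ^ (![1, 0] : Fin 2 → ℕ) j) = ![θ, √2] := by
    funext j
    fin_cases j <;> simp
  rw [e] at h
  exact h

theorem JFT_of_FT {x c : ℝ} {τ : ℕ} (hc : 0 < c) (hx : FT x c τ) : JFT ![x] c τ := by
  intro q hq Q hQ hqQ
  have hq0 : q 0 ≠ 0 := by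
    intro h
    apply hq
    ext j
    rw [Subsingleton.elim j 0, h]
    rfl
  have h1 := hx (q 0) hq0
  have h2 : ∑ j, (q j : ℝ) * (![x] : Fin 1 → ℝ) j = x * q 0 := by
    simp [mul_comm]
  rw [h2]
  refine le_trans ?_ h1
  have h3 : (0 : ℝ) < |(q 0 : ℝ)| := abs_pos.2 (by exact_mod_cast hq0)
  exact div_le_div_of_nonneg_left hc.le (by positivity) (pow_le_pow_left₀ h3.le (hqQ 0) τ)

theorem FT_of_JFT_two {θ c : ℝ} {τ : ℕ} (h : JFT ![θ, √2] c τ) : JFT ![θ] c τ := by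
  intro q hq Q hQ hqQ
  have h1 := h ![q 0, 0] (by
    intro h0
    apply hq
    ext j
    rw [Subsingleton.elim j 0]
    exact congrFun h0 0) Q hQ (by
    intro j
    fin_cases j
    · exact hqQ 0
    · simp
      linarith)
  simpa using h1

end Pool.Agent.X121.TV
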