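import Pool.Agent.X121.AB.Weyl

set_option autoImplicit false

namespace Pool.Agent.X121.TV

open Finset Pool.Agent.Y957.VK Filter Pool.Agent.X121.AB
open Pool.Agent.Y93.VK (ee ee_add norm_ee)

theorem TT_small' (τ : ℕ) {κ : ℝ} (hκ : 0 < κ) :
    ∀ᶠ y : ℝ in atTop, ∀ (r d L : ℕ) (α : ℕ → ℝ), 2 ≤ r → (r : ℝ) ≤ y ^ 10 →
      d ∈ Finset.Icc 1 r → 1 ≤ L → κ * y ^ 70 ≤ Real.log L → FT (α d) (Real.exp (-(y ^ 60))) τ →
      ‖TT r (L ^ (τ + 1)) α‖ ≤ (((L ^ (τ + 1) : ℕ) : ℝ)) ^ 2 * Real.exp (-(y ^ 21)) := by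
  filter_upwards [eventually_ge_atTop (1 : ℝ), ev_pow_exp (2 * (τ + 1)) 20 (ε := 1 / 4) (by norm_num),
    ev_pow_ge (4 * 112522) κ hκ 4 (by norm_num),
    ev_pow_ge 72 κ hκ 7 (by norm_num)] with y hy1 hy2 hy3 hy4
  intro r d L α hr hry hd hL hℓ hα
  have hy0 : (0 : ℝ) < y := by linarith
  obtain ⟨K, hK⟩ : ∃ K : ℕ, K = ⌈y⌉₊ := ⟨_, rfl⟩
  have hKy : y ≤ K := by rw [hK]; exact Nat.le_ceil y
  have hK2 : (K : ℝ) ≤ 2 * y := by
    have := Nat.ceil_lt_add_one hy0.le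
    rw [← hK] at this
    linarith
  have hr2 : (2 : ℝ) ≤ r := by exact_mod_cast hr
  have hr0 : (0 : ℝ) < r := by linarith
  have hc : 0 < Real.exp (-(y ^ 60)) := Real.exp_pos _
  have hc1 : Real.exp (-(y ^ 60)) ≤ 1 := by
    rw [Real.exp_le_one_iff]
    have : 0 ≤ y ^ 60 := by positivity
    linarith
  have hmain := TT_top hc hc1 hα (h := 1) one_ne_zero hr hd (m := r * K) hL α (by simp)
  have h11 : 3 * |((1 : ℤ) : ℝ)| ^ τ / (Real.exp (-(y ^ 60)) * L) = 3 / (Real.exp (-(y ^ 60)) * L) := by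
    simp
  rw [h11] at hmain
  obtain ⟨s, hs⟩ : ∃ s : ℕ, s = r ^ 2 + r * (r * K) := ⟨_, rfl⟩
  have hs1 : 1 ≤ s := by rw [hs]; have : 1 ≤ r ^ 2 := Nat.one_le_pow _ _ (by omega); omega
  obtain ⟨M, hM⟩ : ∃ M : ℕ, M = L ^ (τ + 1) := ⟨_, rfl⟩
  have hM1 : 1 ≤ M := by rw [hM]; exact Nat.one_le_pow _ _ hL
  have hM0 : (0 : ℝ) < M := by exact_mod_cast hM1
  have hL0 : (0 : ℝ) < L := by exact_mod_cast hL
  rw [← hM, ← hs] at hmain
  rw [← hM]
  obtain ⟨ℓ, hℓd⟩ : ∃ ℓ : ℝ, ℓ = Real.log L := ⟨_, rfl⟩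
  rw [← hℓd] at hℓ
  have hℓ0 : 0 < ℓ := lt_of_lt_of_le (by positivity) hℓ
  have hLe : (L : ℝ) = Real.exp ℓ := by rw [hℓd, Real.exp_log hL0]
  have hMe : (M : ℝ) = Real.exp ((τ + 1) * ℓ) := by
    rw [hM]
    push_cast
    rw [hLe, ← Real.exp_nat_mul]
    push_cast
    rfl
  -- powers of y
  have yp : ∀ a b : ℕ, a ≤ b → y ^ a ≤ y ^ b := fun a b hab => pow_le_pow_right₀ hy1 hab
  have hy1' : ∀ a : ℕ, 1 ≤ y ^ a := fun a => one_le_pow₀ hy1
  have hm : (((r * K : ℕ)) : ℝ) ≤ 2 * y ^ 11 := by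
    push_cast
    calc (r : ℝ) * K ≤ y ^ 10 * (2 * y) := mul_le_mul hry hK2 (Nat.cast_nonneg _) (by positivity)
      _ = 2 * y ^ 11 := by ring
  have hsR : (s : ℝ) ≤ 3 * y ^ 21 := by
    have e : (s : ℝ) = (r : ℝ) ^ 2 + r * ((r * K : ℕ) : ℝ) := by rw [hs]; push_cast; ring
    rw [e]
    have h1 : (r : ℝ) ^ 2 ≤ y ^ 21 := by
      calc (r : ℝ) ^ 2 ≤ (y ^ 10) ^ 2 := pow_le_pow_left₀ hr0.le hry 2
        _ = y ^ 20 := by ring
        _ ≤ y ^ 21 := yp _ _ (by norm_num)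
    have h2 : (r : ℝ) * ((r * K : ℕ) : ℝ) ≤ 2 * y ^ 21 := by
      calc (r : ℝ) * ((r * K : ℕ) : ℝ) ≤ y ^ 10 * (2 * y ^ 11) :=
            mul_le_mul hry hm (Nat.cast_nonneg _) (by positivity)
        _ = 2 * y ^ 21 := by ring
    linarith
  -- first factor
  have f1 : Real.exp (18 * ((r * K : ℕ) : ℝ) * ((r : ℝ) + ((r * K : ℕ) : ℝ) + 2) ^ 5) ≤
      Real.exp (112500 * y ^ 66) := by
    apply Real.exp_le_exp.2
    have h1 : (r : ℝ) + ((r * K : ℕ) : ℝ) + 2 ≤ 5 * y ^ 11 := by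
      have := yp 10 11 (by norm_num)
      have := hy1' 11
      linarith
    calc 18 * ((r * K : ℕ) : ℝ) * ((r : ℝ) + ((r * K : ℕ) : ℝ) + 2) ^ 5 ≤
        18 * (2 * y ^ 11) * (5 * y ^ 11) ^ 5 := by
          apply mul_le_mul
          · linarith
          · exact pow_le_pow_left₀ (by positivity) h1 5
          · positivity
          · positivity
      _ = 112500 * y ^ 66 := by ring
  -- second factor
  have f2 : ((3 * s : ℕ) : ℝ) ^ (2 * r) ≤ Real.exp (18 * y ^ 66) := by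
    have h1 : ((3 * s : ℕ) : ℝ) ≤ Real.exp (9 * y ^ 21) := by
      have : ((3 * s : ℕ) : ℝ) ≤ 9 * y ^ 21 := by push_cast; linarith
      have h2 := Real.add_one_le_exp (9 * y ^ 21)
      linarith
    calc ((3 * s : ℕ) : ℝ) ^ (2 * r) ≤ (Real.exp (9 * y ^ 21)) ^ (2 * r) :=
          pow_le_pow_left₀ (Nat.cast_nonneg _) h1 _
      _ = Real.exp (((2 * r : ℕ) : ℝ) * (9 * y ^ 21)) := by rw [← Real.exp_nat_mul]
      _ ≤ Real.exp (18 * y ^ 66) := by
          apply Real.exp_le_exp.2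
          push_cast
          calc 2 * (r : ℝ) * (9 * y ^ 21) ≤ 2 * y ^ 10 * (9 * y ^ 21) := by gcongr
            _ = 18 * y ^ 31 := by ring
            _ ≤ 18 * y ^ 66 := by
                have := yp 31 66 (by norm_num)
                linarith
  -- third factor
  have f3 : (M : ℝ) ^ ((r : ℝ) * (r + 1) * (1 - 1 / (r : ℝ)) ^ (r * K)) ≤ Real.exp (ℓ / 4) := by
    rw [hMe, ← Real.exp_mul]
    apply Real.exp_le_exp.2
    have h0 : (0 : ℝ) ≤ 1 - 1 / (r : ℝ) := by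
      rw [sub_nonneg, div_le_one hr0]
      linarith
    have h1 : (1 - 1 / (r : ℝ)) ^ (r * K) ≤ Real.exp (-y) := by
      calc (1 - 1 / (r : ℝ)) ^ (r * K) ≤ (Real.exp (-(1 / (r : ℝ)))) ^ (r * K) := by
            apply pow_le_pow_left₀ h0
            have := Real.add_one_le_exp (-(1 / (r : ℝ)))
            linarith
        _ = Real.exp (((r * K : ℕ) : ℝ) * (-(1 / (r : ℝ)))) := by rw [← Real.exp_nat_mul]
        _ = Real.exp (-(K : ℝ)) := by
            congr 1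
            push_cast
            field_simp
        _ ≤ Real.exp (-y) := Real.exp_le_exp.2 (by linarith)
    have h2 : (r : ℝ) * (r + 1) ≤ 2 * y ^ 20 := by
      have h3 : (r : ℝ) + 1 ≤ 2 * y ^ 10 := by have := hy1' 10; linarith
      calc (r : ℝ) * (r + 1) ≤ y ^ 10 * (2 * y ^ 10) := mul_le_mul hry h3 (by positivity) (by positivity)
        _ = 2 * y ^ 20 := by ring
    have h3 : (r : ℝ) * (r + 1) * (1 - 1 / (r : ℝ)) ^ (r * K) ≤ 2 * y ^ 20 * Real.exp (-y) :=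
      mul_le_mul h2 h1 (by positivity) (by positivity)
    calc (↑τ + 1) * ℓ * ((r : ℝ) * (r + 1) * (1 - 1 / (r : ℝ)) ^ (r * K)) ≤
        (↑τ + 1) * ℓ * (2 * y ^ 20 * Real.exp (-y)) := by gcongr
      _ = (2 * (↑τ + 1) * y ^ 20 * Real.exp (-y)) * ℓ := by ring
      _ ≤ 1 / 4 * ℓ := by gcongr
      _ = ℓ / 4 := by ring
  -- fourth factor
  have f4 : 3 / (Real.exp (-(y ^ 60)) * L) ≤ Real.exp (3 + y ^ 60 - ℓ) := by
    have h3 : (3 : ℝ) ≤ Real.exp 3 := by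
      have := Real.add_one_le_exp (3 : ℝ)
      linarith
    rw [hLe, Real.exp_sub, Real.exp_add, Real.exp_neg, ← Real.exp_add] at *
    rw [div_le_div_iff₀ (by positivity) (by positivity)]
    rw [Real.exp_add]
    have e : Real.exp 3 * Real.exp (y ^ 60) * ((Real.exp (y ^ 60))⁻¹ * Real.exp ℓ) =
        Real.exp 3 * Real.exp ℓ := by
      have : Real.exp (y ^ 60) ≠ 0 := (Real.exp_pos _).ne'
      field_simp
    rw [e]
    gcongr
  -- all together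
  have hE : Real.exp (18 * ((r * K : ℕ) : ℝ) * ((r : ℝ) + ((r * K : ℕ) : ℝ) + 2) ^ 5) *
      ((3 * s : ℕ) : ℝ) ^ (2 * r) *
      (M : ℝ) ^ ((r : ℝ) * (r + 1) * (1 - 1 / (r : ℝ)) ^ (r * K)) *
      (3 / (Real.exp (-(y ^ 60)) * L)) ≤ Real.exp (-(ℓ / 2)) := by
    calc _ ≤ Real.exp (112500 * y ^ 66) * Real.exp (18 * y ^ 66) * Real.exp (ℓ / 4) *
          Real.exp (3 + y ^ 60 - ℓ) := by gcongr
      _ = Real.exp (112500 * y ^ 66 + 18 * y ^ 66 + ℓ / 4 + (3 + y ^ 60 - ℓ)) := by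
          rw [Real.exp_add, Real.exp_add, Real.exp_add]
      _ ≤ Real.exp (-(ℓ / 2)) := by
          apply Real.exp_le_exp.2
          have h1 : 112518 * y ^ 66 + 3 + y ^ 60 ≤ 112522 * y ^ 66 := by
            have a1 := hy1' 66
            have a2 := yp 60 66 (by norm_num)
            linarith
          have h2 : 112522 * y ^ 66 ≤ ℓ / 4 := by
            have h3 : 4 * 112522 * y ^ 66 ≤ κ * y ^ 4 * y ^ 66 :=
              mul_le_mul_of_nonneg_right hy3 (by positivity)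
            have h4 : κ * y ^ 4 * y ^ 66 = κ * y ^ 70 := by ring
            rw [h4] at h3
            linarith
          linarith
  have hfin : ‖TT r M α‖ ^ (4 * s ^ 2) ≤ ((M : ℝ) ^ 2 * Real.exp (-(y ^ 21))) ^ (4 * s ^ 2) := by
    refine hmain.trans ?_
    rw [mul_pow, ← pow_mul, show 2 * (4 * s ^ 2) = 8 * s ^ 2 by ring]
    apply mul_le_mul_of_nonneg_left _ (by positivity)
    refine hE.trans ?_
    rw [← Real.exp_nat_mul]
    apply Real.exp_le_exp.2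
    push_cast
    have h1 : (s : ℝ) ^ 2 ≤ 9 * y ^ 42 := by
      calc (s : ℝ) ^ 2 ≤ (3 * y ^ 21) ^ 2 := pow_le_pow_left₀ (Nat.cast_nonneg _) hsR 2
        _ = 9 * y ^ 42 := by ring
    have h2 : 4 * (s : ℝ) ^ 2 * y ^ 21 ≤ 36 * y ^ 63 := by
      calc 4 * (s : ℝ) ^ 2 * y ^ 21 ≤ 4 * (9 * y ^ 42) * y ^ 21 := by gcongr
        _ = 36 * y ^ 63 := by ring
    have h3 : 72 * y ^ 63 ≤ κ * y ^ 7 * y ^ 63 := mul_le_mul_of_nonneg_right hy4 (by positivity)
    have h4 : κ * y ^ 7 * y ^ 63 = κ * y ^ 70 := by ring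
    rw [h4] at h3
    linarith
  exact le_of_pow_le_pow_left₀ (by have : 1 ≤ s ^ 2 := Nat.one_le_pow _ _ hs1; omega) (by positivity) hfin

/-- exponential sums over functions which are locally polynomial phases with a coefficient of
finite type -/
theorem weylG (τ : ℕ) :
    ∀ᶠ y : ℝ in atTop, ∀ B : ℕ, (B : ℝ) = Real.exp (y ^ 70) → ∀ (F : ℕ → ℂ) (r d : ℕ), 2 ≤ r →
      (r : ℝ) ≤ y ^ 10 → d ∈ Finset.Icc 1 r →
      (∀ b : ℕ, ∃ (u : ℂ) (α : ℕ → ℝ), ‖u‖ = 1 ∧ FT (α d) (Real.exp (-(y ^ 60))) τ ∧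
        ∀ n : ℕ, F (b + n) = u * ee (∑ j ∈ Finset.Icc 1 r, α j * (n : ℝ) ^ j)) →
      ‖∑ b ∈ Finset.Icc 1 B, F b‖ ≤ B * Real.exp (-(y ^ 20)) := by
  have hκ : (0 : ℝ) < 1 / (8 * (τ + 1)) := by positivity
  filter_upwards [TT_small' τ hκ, eventually_ge_atTop (2 : ℝ),
    ev_pow_ge 2 (1 / (4 * (τ + 1) : ℝ)) (by positivity) 70 (by norm_num)] with y hy1 hy2 hy3
  intro B hB F r d hr2 hry hd hF
  have hy0 : (0 : ℝ) < y := by linarith
  have hτ : (0 : ℝ) < (τ : ℝ) + 1 := by positivity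
  obtain ⟨z, hz⟩ : ∃ z : ℝ, z = 1 / (4 * (τ + 1) : ℝ) * y ^ 70 := ⟨_, rfl⟩
  have hz2 : 2 ≤ z := by rw [hz]; exact hy3
  obtain ⟨L, hL⟩ : ∃ L : ℕ, L = ⌊Real.exp z⌋₊ := ⟨_, rfl⟩
  have hexp : z + 1 ≤ Real.exp z := Real.add_one_le_exp z
  have hL1 : 1 ≤ L := by
    rw [hL, Nat.one_le_floor_iff]
    linarith
  have hL0 : (0 : ℝ) < L := by exact_mod_cast hL1
  have hLle : (L : ℝ) ≤ Real.exp z := by rw [hL]; exact Nat.floor_le (Real.exp_nonneg z)
  have hLge : Real.exp (z / 2) ≤ L := by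
    have h1 : Real.exp z < L + 1 := by rw [hL]; exact Nat.lt_floor_add_one _
    have h2 : Real.exp z = Real.exp (z / 2) * Real.exp (z / 2) := by
      rw [← Real.exp_add]; congr 1; ring
    have h3 : 2 ≤ Real.exp (z / 2) := by
      have := Real.add_one_le_exp (z / 2)
      linarith
    nlinarith
  have hlogL : 1 / (8 * (τ + 1) : ℝ) * y ^ 70 ≤ Real.log L := by
    have h1 : z / 2 ≤ Real.log L := by
      rw [Real.le_log_iff_exp_le hL0]
      exact hLge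
    have h2 : z / 2 = 1 / (8 * (τ + 1) : ℝ) * y ^ 70 := by
      rw [hz]; field_simp; ring
    linarith
  obtain ⟨M, hM⟩ : ∃ M : ℕ, M = L ^ (τ + 1) := ⟨_, rfl⟩
  have hM1 : 1 ≤ M := by rw [hM]; exact Nat.one_le_pow _ _ hL1
  have hM0 : (0 : ℝ) < M := by exact_mod_cast hM1
  have hM2 : (M : ℝ) ^ 2 ≤ Real.exp (y ^ 70 / 2) := by
    have h1 : (M : ℝ) ≤ Real.exp (y ^ 70 / 4) := by
      rw [hM]
      push_cast
      calc (L : ℝ) ^ (τ + 1) ≤ (Real.exp z) ^ (τ + 1) := pow_le_pow_left₀ hL0.le hLle _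
        _ = Real.exp (y ^ 70 / 4) := by
            rw [← Real.exp_nat_mul, hz]
            congr 1
            push_cast
            field_simp
    calc (M : ℝ) ^ 2 ≤ (Real.exp (y ^ 70 / 4)) ^ 2 := pow_le_pow_left₀ hM0.le h1 2
      _ = Real.exp (y ^ 70 / 2) := by
          rw [← Real.exp_nat_mul]
          congr 1
          push_cast
          ring
  have hnorm : ∀ n, ‖F n‖ ≤ 1 := by
    intro n
    obtain ⟨u, α, hu, -, h⟩ := hF n
    have := h 0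
    rw [add_zero] at this
    rw [this, norm_mul, hu, norm_ee, one_mul]
  have key : ∀ b : ℕ, ‖∑ p ∈ Finset.Icc 1 M, ∑ q ∈ Finset.Icc 1 M, F (b + p * q)‖ ≤
      (M : ℝ) ^ 2 * Real.exp (-(y ^ 21)) := by
    intro b
    obtain ⟨u, α, hu, hα, h⟩ := hF b
    have e : ∑ p ∈ Finset.Icc 1 M, ∑ q ∈ Finset.Icc 1 M, F (b + p * q) = u * TT r M α := by
      unfold TT
      rw [Finset.mul_sum]
      refine Finset.sum_congr rfl fun p _ => ?_
      rw [Finset.mul_sum]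
      refine Finset.sum_congr rfl fun q _ => ?_
      rw [h (p * q), Nat.cast_mul]
      rfl
    rw [e, norm_mul, hu, one_mul, hM]
    exact hy1 r d L α hr2 hry hd hL1 hlogL hα
  have h1 := bilinear F hnorm B M hM1 key
  refine h1.trans ?_
  have h2 : (B : ℝ) * ((M : ℝ) ^ 2 * Real.exp (-(y ^ 21))) / (M : ℝ) ^ 2 = B * Real.exp (-(y ^ 21)) := by
    field_simp
  rw [h2]
  have hB0 : (0 : ℝ) < B := by rw [hB]; exact Real.exp_pos _
  have yp : ∀ a b : ℕ, a ≤ b → y ^ a ≤ y ^ b := fun a b hab => pow_le_pow_right₀ (by linarith) hab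
  have h20 : (2 : ℝ) ^ 20 ≤ y ^ 20 := pow_le_pow_left₀ (by norm_num) hy2 20
  have h3 : Real.exp (-(y ^ 21)) ≤ Real.exp (-(y ^ 20)) / 4 := by
    have h4 : y ^ 20 + 2 ≤ y ^ 21 := by
      have : 2 * y ^ 20 ≤ y ^ 21 := by
        calc 2 * y ^ 20 ≤ y * y ^ 20 := by gcongr
          _ = y ^ 21 := by ring
      norm_num at h20
      linarith
    have h5 : Real.exp (-(y ^ 21)) ≤ Real.exp (-(y ^ 20) + (-2)) := Real.exp_le_exp.2 (by linarith)
    rw [Real.exp_add] at h5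
    have h6 : Real.exp (-2) ≤ 1 / 4 := by
      rw [Real.exp_neg, ← one_div]
      apply one_div_le_one_div_of_le (by norm_num)
      have h7 : Real.exp 2 = Real.exp 1 * Real.exp 1 := by rw [← Real.exp_add]; norm_num
      rw [h7]
      have h8 : (2 : ℝ) ≤ Real.exp 1 := by
        have := Real.add_one_le_exp (1 : ℝ)
        linarith
      nlinarith
    calc _ ≤ Real.exp (-(y ^ 20)) * Real.exp (-2) := h5
      _ ≤ Real.exp (-(y ^ 20)) * (1 / 4) := by gcongr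
      _ = _ := by ring
  have h4 : 2 * (M : ℝ) ^ 2 ≤ B * Real.exp (-(y ^ 20)) / 4 := by
    rw [hB, ← Real.exp_add]
    have h5 : y ^ 70 / 2 + 3 ≤ y ^ 70 + -(y ^ 20) := by
      have h6 : 2 * (y ^ 20 + 3) ≤ y ^ 70 := by
        have h7 : (2 : ℝ) ^ 50 ≤ y ^ 50 := pow_le_pow_left₀ (by norm_num) hy2 50
        have h8 : (8 : ℝ) ≤ y ^ 50 := by
          norm_num at h7
          linarith
        norm_num at h20
        calc 2 * (y ^ 20 + 3) ≤ 8 * y ^ 20 := by linarith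
          _ ≤ y ^ 50 * y ^ 20 := by gcongr
          _ = y ^ 70 := by ring
      linarith
    have h6 : Real.exp (y ^ 70 / 2) * Real.exp 3 ≤ Real.exp (y ^ 70 + -(y ^ 20)) := by
      rw [← Real.exp_add]
      exact Real.exp_le_exp.2 h5
    have h7 : (8 : ℝ) ≤ Real.exp 3 := by
      have h8 : Real.exp 3 = Real.exp 1 * Real.exp 1 * Real.exp 1 := by
        rw [← Real.exp_add, ← Real.exp_add]; norm_num
      rw [h8]
      have h9 : (2 : ℝ) ≤ Real.exp 1 := by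
        have := Real.add_one_le_exp (1 : ℝ)
        linarith
      have h10 : (4 : ℝ) ≤ Real.exp 1 * Real.exp 1 := by nlinarith
      nlinarith
    have h8 : Real.exp (y ^ 70 / 2) * 8 ≤ Real.exp (y ^ 70 / 2) * Real.exp 3 := by gcongr
    linarith
  have h5 : B * Real.exp (-(y ^ 21)) ≤ B * (Real.exp (-(y ^ 20)) / 4) := by gcongr
  have h6 : 0 < B * Real.exp (-(y ^ 20)) := by positivity
  linarith

end Pool.Agent.X121.TV
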