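import Pool.Agent.X121.TV.Joint

set_option autoImplicit false

namespace Pool.Agent.X121.TV

open Finset Filter Pool.Agent.X121.AB Polynomial

/-- the statement on the digits in random bases -/
def Rand {k : ℕ} (x : Fin k → ℝ) : Prop :=
  ∃ H₀ : ℕ, ∀ H : ℕ, H₀ ≤ H → ∀ M N m : ℕ, 1 ≤ m → (N : ℝ) ≤ (Real.log H) ^ (1 / 7 : ℝ) →
    (m : ℝ) ≤ Real.exp ((Real.log H) ^ (1 / 10 : ℝ)) → ∀ E : Finset (Fin k → Fin N → Fin m),
      |(((Finset.Ioc M (M + H)).filter fun b : ℕ => ∃ A ∈ E, ∀ (j : Fin k) (i : Fin N),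
          ⌊m * Int.fract (x j * (b : ℝ) ^ ((i : ℕ) + 1))⌋₊ = (A j i : ℕ)).card : ℝ) / H -
        E.card / (m : ℝ) ^ (k * N)| ≤ Real.exp (-((Real.log H) ^ (1 / 10 : ℝ)))

theorem rand_of {k : ℕ} {x : Fin k → ℝ} {c : ℝ} {τ : ℕ} (hc : 0 < c) (hx : JFT x c τ) : Rand x := by
  classical
  obtain ⟨H₀, h⟩ := joint_main hc hx
  refine ⟨H₀, fun H hH M N m hm hN hmH E => ?_⟩
  have h1 := h H hH M N hN m hm hmH (E.map (Equiv.curry (Fin k) (Fin N) (Fin m)).symm.toEmbedding)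
  rw [Finset.card_map] at h1
  have h2 : ((Finset.Ioc M (M + H)).filter fun b : ℕ => ∃ A ∈ E, ∀ (j : Fin k) (i : Fin N),
      ⌊m * Int.fract (x j * (b : ℝ) ^ ((i : ℕ) + 1))⌋₊ = (A j i : ℕ)).card =
      ((Finset.Icc 1 H).filter fun b => cell m hm
            (fun i : Fin k × Fin N => x i.1 * (((M + b : ℕ) : ℝ)) ^ ((i.2 : ℕ) + 1)) ∈
              (E.map (Equiv.curry (Fin k) (Fin N) (Fin m)).symm.toEmbedding)).card := by
    symm
    refine Finset.card_bij (fun b _ => M + b) ?_ ?_ ?_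
    · intro b hb
      rw [Finset.mem_filter, Finset.mem_Icc] at hb
      obtain ⟨⟨hb1, hb2⟩, hb3⟩ := hb
      rw [Finset.mem_map] at hb3
      obtain ⟨A, hA, hA2⟩ := hb3
      rw [Finset.mem_filter, Finset.mem_Ioc]
      refine ⟨⟨by omega, by omega⟩, A, hA, fun j i => ?_⟩
      have := congrFun hA2 ((j, i) : Fin k × Fin N)
      have h3 := congrArg (fun z : Fin m => (z : ℕ)) this
      exact h3.symm
    · intro b _ b' _ hbb
      omega
    · intro b hb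
      rw [Finset.mem_filter, Finset.mem_Ioc] at hb
      obtain ⟨⟨hb1, hb2⟩, A, hA, hA2⟩ := hb
      refine ⟨b - M, ?_, by omega⟩
      rw [Finset.mem_filter, Finset.mem_Icc]
      refine ⟨⟨by omega, by omega⟩, ?_⟩
      rw [Finset.mem_map]
      refine ⟨A, hA, ?_⟩
      have e : M + (b - M) = b := by omega
      rw [e]
      funext ⟨j, i⟩
      apply Fin.ext
      exact (hA2 j i).symm
  rw [h2]
  exact h1

theorem transc_of {θ : ℝ} (hθ : MT θ) : Transcendental ℚ θ := by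
  intro h
  have h' : IsAlgebraic ℤ θ := (IsFractionRing.isAlgebraic_iff ℤ ℚ ℝ).2 h
  obtain ⟨P, hP, hP0⟩ := h'
  obtain ⟨κ, c, -, hc, hm⟩ := hθ P.natDegree
  have hs : 0 ≤ ∑ k : Fin (P.natDegree + 1), |(P.coeff k : ℝ)| :=
    Finset.sum_nonneg fun _ _ => abs_nonneg _
  have h1 := hm (fun k => P.coeff k) (by
    intro h0
    apply hP
    rw [← leadingCoeff_eq_zero]
    exact congrFun h0 ⟨P.natDegree, Nat.lt_succ_self _⟩) (1 + ∑ k : Fin (P.natDegree + 1), |(P.coeff k : ℝ)|)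
    (by linarith) (fun k => by
      have := Finset.single_le_sum (f := fun k : Fin (P.natDegree + 1) => |(P.coeff k : ℝ)|)
        (fun _ _ => abs_nonneg _) (Finset.mem_univ k)
      linarith)
  have h2 : ∑ k : Fin (P.natDegree + 1), (P.coeff k : ℝ) * θ ^ (k : ℕ) = aeval θ P := by
    rw [aeval_eq_sum_range, Finset.sum_range]
    refine Finset.sum_congr rfl fun i _ => ?_
    rw [zsmul_eq_mul]
  rw [h2, hP0, abs_zero, mul_zero] at h1
  linarith

/-- numbers `β θ ^ w` with algebraic `β` -/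
theorem rand_alg {θ : ℝ} (hθ : MT θ) {k : ℕ} (β : Fin k → ℝ) (w : Fin k → ℕ)
    (hβ : ∀ j, IsAlgebraic ℚ (β j))
    (hli : LinearIndependent ℚ (Fin.cons 1 (fun j => β j * θ ^ w j) : Fin (k + 1) → ℝ)) :
    Rand (fun j => β j * θ ^ w j) := by
  classical
  obtain ⟨K, hK⟩ : ∃ K : IntermediateField ℚ ℝ, K = IntermediateField.adjoin ℚ (Set.range β) := ⟨_, rfl⟩
  have hfd : FiniteDimensional ℚ K := by
    rw [hK]
    exact IntermediateField.finiteDimensional_adjoin (by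
      rintro _ ⟨j, rfl⟩
      exact (hβ j).isIntegral)
  have hmem : ∀ j, β j ∈ K := by
    intro j
    rw [hK]
    exact IntermediateField.subset_adjoin _ _ ⟨j, rfl⟩
  obtain ⟨c, τ, hc, h⟩ := JFT_field hθ K (fun j => (⟨β j, hmem j⟩ : K)) w hli
  exact rand_of hc h

theorem li_two {θ : ℝ} (hθ : Transcendental ℚ θ) :
    LinearIndependent ℚ (Fin.cons 1 (fun j => (![1, √2] : Fin 2 → ℝ) j * θ ^ (![1, 0] : Fin 2 → ℕ) j) :
      Fin 3 → ℝ) := by
  rw [Fintype.linearIndependent_iff]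
  intro g hg
  have h1 : (g 0 : ℝ) + g 1 * θ + g 2 * √2 = 0 := by
    rw [← hg, Fin.sum_univ_three]
    have e0 : (Fin.cons 1 (fun j => (![1, √2] : Fin 2 → ℝ) j * θ ^ (![1, 0] : Fin 2 → ℕ) j) :
      Fin 3 → ℝ) 0 = 1 := rfl
    have e1 : (Fin.cons 1 (fun j => (![1, √2] : Fin 2 → ℝ) j * θ ^ (![1, 0] : Fin 2 → ℕ) j) :
      Fin 3 → ℝ) 1 = θ := by
      show 1 * θ ^ 1 = θ
      ring
    have e2 : (Fin.cons 1 (fun j => (![1, √2] : Fin 2 → ℝ) j * θ ^ (![1, 0] : Fin 2 → ℕ) j) :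
      Fin 3 → ℝ) 2 = √2 := by
      show √2 * θ ^ 0 = √2
      ring
    rw [e0, e1, e2, Rat.smul_def, Rat.smul_def, Rat.smul_def, mul_one]
  have hs2 : IsAlgebraic ℚ (√2) := by
    refine ⟨X ^ 2 - C 2, ?_, by simp⟩
    exact X_pow_sub_C_ne_zero (by norm_num) _
  have h2 : g 1 = 0 := by
    by_contra h
    have hR : (g 1 : ℝ) ≠ 0 := by exact_mod_cast h
    apply hθ
    have e : θ = (-(g 0 : ℝ) - g 2 * √2) / g 1 := by
      field_simp
      linarith
    rw [e]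
    have a0 : IsAlgebraic ℚ ((g 0 : ℚ) : ℝ) := isAlgebraic_algebraMap (g 0)
    have a1 : IsAlgebraic ℚ ((g 1 : ℚ) : ℝ) := isAlgebraic_algebraMap (g 1)
    have a2 : IsAlgebraic ℚ ((g 2 : ℚ) : ℝ) := isAlgebraic_algebraMap (g 2)
    rw [div_eq_mul_inv]
    exact (a0.neg.sub (a2.mul hs2)).mul a1.inv
  rw [h2] at h1
  have h3 : g 2 = 0 := by
    by_contra h
    have hR : (g 2 : ℝ) ≠ 0 := by exact_mod_cast h
    apply irrational_sqrt_two
    refine ⟨-g 0 / g 2, ?_⟩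
    push_cast
    rw [div_eq_iff hR]
    push_cast at h1
    linarith
  rw [h3] at h1
  have h4 : g 0 = 0 := by
    have : (g 0 : ℝ) = 0 := by simpa using h1
    exact_mod_cast this
  intro i
  fin_cases i
  · exact h4
  · exact h2
  · exact h3

theorem rand_two {θ : ℝ} (hθ : MT θ) : Rand ![θ, √2] := by
  have h := rand_alg hθ (![1, √2] : Fin 2 → ℝ) (![1, 0] : Fin 2 → ℕ) (by
    intro j
    fin_cases j
    · exact isAlgebraic_one
    · refine ⟨X ^ 2 - C 2, ?_, by simp⟩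
      exact X_pow_sub_C_ne_zero (by norm_num) _) (li_two (transc_of hθ))
  have e : (fun j => (![1, √2] : Fin 2 → ℝ) j * θ ^ (![1, 0] : Fin 2 → ℕ) j) = ![θ, √2] := by
    funext j
    fin_cases j <;> simp
  rw [e] at h
  exact h

end Pool.Agent.X121.TV
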